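import Mathlib

/-!
# The coefficient-counting argument

For the Hermitian form with Gram matrix `Lm` over `ℤ[T;T⁻¹]` no vector has value with constant
coefficient one.
-/

set_option autoImplicit false
open LaurentPolynomial

namespace Pool.Agent.H62A

/-- sum of squares of the coefficients -/
noncomputable def N (f : LaurentPolynomial ℤ) : ℤ := ∑ k ∈ f.coeff.support, f.coeff k * f.coeff k

theorem N_eq (f : LaurentPolynomial ℤ) : (invert f * f).coeff 0 = N f := by
  rw [mul_comm, AddMonoidAlgebra.coeff_mul_apply_left]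
  simp [N, Finsupp.sum]

theorem N_ge (f : LaurentPolynomial ℤ) (S : Finset ℤ) :
    ∑ k ∈ S, f.coeff k * f.coeff k ≤ N f := by
  classical
  have h1 : ∑ k ∈ S, f.coeff k * f.coeff k = ∑ k ∈ S ∩ f.coeff.support, f.coeff k * f.coeff k := by
    refine (Finset.sum_subset Finset.inter_subset_left ?_).symm
    intro k hk hk2
    have : f.coeff k = 0 := by
      by_contra h
      exact hk2 (Finset.mem_inter.2 ⟨hk, Finsupp.mem_support_iff.2 h⟩)
    simp [this]
  rw [h1]
  exact Finset.sum_le_sum_of_subset_of_nonneg Finset.inter_subset_right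
    (fun k _ _ => mul_self_nonneg _)

theorem N_even (f : LaurentPolynomial ℤ) (h : ∀ k, Even (f.coeff k)) : (4:ℤ) ∣ N f := by
  refine Finset.dvd_sum (fun k _ => ?_)
  obtain ⟨r, hr⟩ := h k
  exact ⟨r * r, by rw [hr]; ring⟩

/-- `x = T 1 + T (-1)` -/
noncomputable def X : LaurentPolynomial ℤ := T 1 + T (-1)

theorem coeff_X_mul (d : LaurentPolynomial ℤ) (k : ℤ) :
    (X * d).coeff k = d.coeff (k - 1) + d.coeff (k + 1) := by
  have h1 : ∀ (n : ℤ), ((T n : LaurentPolynomial ℤ) * d).coeff k = d.coeff (-n + k) := by
    intro n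
    rw [LaurentPolynomial.T, AddMonoidAlgebra.coeff_single_mul_apply, one_mul]
  rw [X, add_mul, AddMonoidAlgebra.coeff_add, Finsupp.add_apply, h1, h1]
  congr 2 <;> ring

theorem odd_two (d : LaurentPolynomial ℤ) (m : ℤ) (hm : Odd (d.coeff m)) :
    ∃ k l : ℤ, k ≠ l ∧ Odd ((X * d).coeff k) ∧ Odd ((X * d).coeff l) := by
  classical
  set O : Finset ℤ := d.coeff.support.filter (fun k => Odd (d.coeff k)) with hO
  have hne : O.Nonempty := ⟨m, by
    rw [hO, Finset.mem_filter, Finsupp.mem_support_iff]
    refine ⟨?_, hm⟩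
    intro h0
    rw [h0] at hm
    exact absurd hm (by decide)⟩
  have hout : ∀ k, k ∉ O → Even (d.coeff k) := by
    intro k hk
    by_contra hc
    apply hk
    rw [hO, Finset.mem_filter, Finsupp.mem_support_iff]
    have := Int.not_even_iff_odd.1 hc
    refine ⟨?_, this⟩
    intro h0
    rw [h0] at this
    exact absurd this (by decide)
  have hmax := O.max'_mem hne
  have hmin := O.min'_mem hne
  have hle : O.min' hne ≤ O.max' hne := O.min'_le _ hmax
  refine ⟨O.max' hne + 1, O.min' hne - 1, by omega, ?_, ?_⟩
  · rw [coeff_X_mul]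
    refine Odd.add_even ?_ ?_
    · have : O.max' hne + 1 - 1 = O.max' hne := by ring
      rw [this]
      exact (Finset.mem_filter.1 hmax).2
    · apply hout
      intro hc
      have := O.le_max' _ hc
      omega
  · rw [coeff_X_mul]
    refine Even.add_odd ?_ ?_
    · apply hout
      intro hc
      have := O.min'_le _ hc
      omega
    · have : O.min' hne - 1 + 1 = O.min' hne := by ring
      rw [this]
      exact (Finset.mem_filter.1 hmin).2

theorem sq_add_ge {a c : ℤ} (h : Odd (c - a)) : 1 ≤ a * a + c * c := by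
  by_contra hlt
  push Not at hlt
  have ha : a = 0 := by nlinarith [mul_self_nonneg a, mul_self_nonneg c]
  have hc : c = 0 := by nlinarith [mul_self_nonneg a, mul_self_nonneg c]
  rw [ha, hc] at h
  exact absurd h (by decide)

theorem sq_ge_of_odd {a : ℤ} (h : Odd a) : 1 ≤ a * a := by
  have h0 : a ≠ 0 := by
    rintro rfl
    exact absurd h (by decide)
  have := mul_self_pos.2 h0
  omega

/-- two polynomials with difference `X * d` modulo two have at least two odd coefficients in
total -/
theorem pair_ge (a c b d : LaurentPolynomial ℤ) (hc : c = a + X * d + 2 * b) (m : ℤ)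
    (hm : Odd (d.coeff m)) : 2 ≤ N a + N c := by
  obtain ⟨k, l, hkl, hk, hl⟩ := odd_two d m hm
  have key : ∀ j, Odd ((X * d).coeff j) → Odd (c.coeff j - a.coeff j) := by
    intro j hj
    have : c.coeff j - a.coeff j = (X * d).coeff j + 2 * b.coeff j := by
      rw [hc, two_mul b]
      simp only [AddMonoidAlgebra.coeff_add, Finsupp.add_apply]
      ring
    rw [this]
    exact Odd.add_even hj ⟨b.coeff j, by ring⟩
  have hNa := N_ge a {k, l}
  have hNc := N_ge c {k, l}
  rw [Finset.sum_pair hkl] at hNa hNc
  have h1 := sq_add_ge (key k hk)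
  have h2 := sq_add_ge (key l hl)
  linarith

theorem N_odd (a : LaurentPolynomial ℤ) (m : ℤ) (h : Odd (a.coeff m)) : 1 ≤ N a := by
  have hNa := N_ge a {m}
  rw [Finset.sum_singleton] at hNa
  have := sq_ge_of_odd h
  linarith

theorem N_nonneg (a : LaurentPolynomial ℤ) : 0 ≤ N a := by
  have hNa := N_ge a ∅
  simpa using hNa

/-- the counting statement -/
theorem total_ne_two (a1 a2 b1 b2 c1 c2 : LaurentPolynomial ℤ)
    (h1 : c1 = a1 + X * (a1 + a2) + 2 * b1) (h2 : c2 = a2 + X * (a1 + a2) + 2 * b2) :
    N a1 + N a2 + N c1 + N c2 ≠ 2 := by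
  intro htot
  by_cases hd : ∃ m, Odd ((a1 + a2).coeff m)
  · obtain ⟨m, hm⟩ := hd
    have e1 := pair_ge a1 c1 b1 (a1 + a2) h1 m hm
    have e2 := pair_ge a2 c2 b2 (a1 + a2) h2 m hm
    linarith
  · push Not at hd
    have hev : ∀ m, Even ((a1 + a2).coeff m) := fun m => by
      rcases Int.even_or_odd ((a1 + a2).coeff m) with h | h
      · exact h
      · exact absurd h (hd m)
    have hXev : ∀ m, Even ((X * (a1 + a2)).coeff m) := fun m => by
      rw [coeff_X_mul]
      exact (hev _).add (hev _)
    have hc1 : ∀ m, Even (c1.coeff m - a1.coeff m) := fun m => by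
      have : c1.coeff m - a1.coeff m = (X * (a1 + a2)).coeff m + 2 * b1.coeff m := by
        rw [h1, two_mul b1]
        simp only [AddMonoidAlgebra.coeff_add, Finsupp.add_apply]
        ring
      rw [this]
      exact (hXev m).add ⟨b1.coeff m, by ring⟩
    have hc2 : ∀ m, Even (c2.coeff m - a2.coeff m) := fun m => by
      have : c2.coeff m - a2.coeff m = (X * (a1 + a2)).coeff m + 2 * b2.coeff m := by
        rw [h2, two_mul b2]
        simp only [AddMonoidAlgebra.coeff_add, Finsupp.add_apply]
        ring
      rw [this]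
      exact (hXev m).add ⟨b2.coeff m, by ring⟩
    have h12 : ∀ m, Even (a1.coeff m + a2.coeff m) := fun m => by
      have := hev m
      rwa [AddMonoidAlgebra.coeff_add, Finsupp.add_apply] at this
    by_cases ho : ∃ m, Odd (a1.coeff m)
    · obtain ⟨m, hm⟩ := ho
      have o2 : Odd (a2.coeff m) := by
        rcases Int.even_or_odd (a2.coeff m) with h | h
        · exact absurd (h12 m) (Int.not_even_iff_odd.2 (Odd.add_even hm h))
        · exact h
      have o3 : Odd (c1.coeff m) := by
        have : c1.coeff m = (c1.coeff m - a1.coeff m) + a1.coeff m := by ring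
        rw [this]
        exact Even.add_odd (hc1 m) hm
      have o4 : Odd (c2.coeff m) := by
        have : c2.coeff m = (c2.coeff m - a2.coeff m) + a2.coeff m := by ring
        rw [this]
        exact Even.add_odd (hc2 m) o2
      have e1 := N_odd a1 m hm
      have e2 := N_odd a2 m o2
      have e3 := N_odd c1 m o3
      have e4 := N_odd c2 m o4
      linarith
    · push Not at ho
      have hev1 : ∀ m, Even (a1.coeff m) := fun m => by
        rcases Int.even_or_odd (a1.coeff m) with h | h
        · exact h
        · exact absurd h (ho m)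
      have hev2 : ∀ m, Even (a2.coeff m) := fun m => by
        have : a2.coeff m = (a1.coeff m + a2.coeff m) - a1.coeff m := by ring
        rw [this]
        exact (h12 m).sub (hev1 m)
      have hev3 : ∀ m, Even (c1.coeff m) := fun m => by
        have : c1.coeff m = (c1.coeff m - a1.coeff m) + a1.coeff m := by ring
        rw [this]
        exact (hc1 m).add (hev1 m)
      have hev4 : ∀ m, Even (c2.coeff m) := fun m => by
        have : c2.coeff m = (c2.coeff m - a2.coeff m) + a2.coeff m := by ring
        rw [this]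
        exact (hc2 m).add (hev2 m)
      have d1 := N_even a1 hev1
      have d2 := N_even a2 hev2
      have d3 := N_even c1 hev3
      have d4 := N_even c2 hev4
      omega

theorem invert_X : invert X = X := by
  rw [X, map_add, invert_T, invert_T]
  simp [add_comm]

/-- the explicit form of rank four, written with `a = t`, `b = t⁻¹` -/
def Lm {R : Type*} [CommRing R] (a b : R) : Matrix (Fin 4) (Fin 4) R :=
  !![1 + (a + b) + (a + b) ^ 2, (a + b) + (a + b) ^ 2, 1 + (a + b), a + b;
     (a + b) + (a + b) ^ 2, 1 + (a + b) + (a + b) ^ 2, a + b, 1 + (a + b);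
     1 + (a + b), a + b, 2, 0;
     a + b, 1 + (a + b), 0, 2]

/-- no vector has value one -/
theorem no_unit_vector (w : Fin 4 → LaurentPolynomial ℤ) :
    ∑ i, ∑ j, invert (w i) * Lm (T 1) (T (-1)) i j * w j ≠ 1 := by
  intro h
  have key : 2 * (∑ i, ∑ j, invert (w i) * Lm (T 1) (T (-1)) i j * w j)
      = invert (w 0) * w 0 + invert (w 1) * w 1
        + invert (w 0 + X * (w 0 + w 1) + 2 * w 2) * (w 0 + X * (w 0 + w 1) + 2 * w 2)
        + invert (w 1 + X * (w 0 + w 1) + 2 * w 3) * (w 1 + X * (w 0 + w 1) + 2 * w 3) := by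
    have h2 : invert (2 : LaurentPolynomial ℤ) = 2 := map_ofNat _ 2
    simp only [map_add, map_mul, invert_X, h2]
    simp only [Fin.sum_univ_four, Lm, Matrix.of_apply, Matrix.cons_val]
    rw [← X]
    ring
  rw [h] at key
  have hc := congrArg (fun f : LaurentPolynomial ℤ => f.coeff 0) key
  simp only [AddMonoidAlgebra.coeff_add, Finsupp.add_apply, N_eq] at hc
  have h21 : ((2 : LaurentPolynomial ℤ) * 1).coeff 0 = 2 := by
    rw [mul_one]
    have : (2 : LaurentPolynomial ℤ) = C 2 := by simp
    rw [this]
    simp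
  rw [h21] at hc
  exact total_ne_two (w 0) (w 1) (w 2) (w 3) _ _ rfl rfl hc.symm

end Pool.Agent.H62A
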