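import Mathlib

/-!
# An explicit isometry

Explicit 8 by 8 matrices over a commutative ring with elements `a * b = 1`.
-/

set_option autoImplicit false

namespace Pool.Agent.H62A

def P8 {R : Type*} [CommRing R] (a b : R) : Matrix (Fin 8) (Fin 8) R :=
  !![1, 1, 0, 0, 0, 0, 0, 0;
     0, 0, 1, 1, 0, 0, 0, 0;
     -1, -b - a, -1, 1 - b - a, -b - b^2 + 2 * a, 1 - a, -2 + 2 * a, -1 + b + a - a^2;
     -1, 1 - b - a, -1, -b - a, -b - b^2 + 2 * a, 1 - a, -2 + 2 * a, -1 + b + a - a^2;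
     1, -1, 1, -1, 1, 0, 2, -2 * a;
     1 - b - a, -1 + b + a, 1 - b - a, -1 + b + a, 1 + b - 2 * b^2 - 2 * b^3 - 4 * a, -3 + 2 * b + 2 * a, 4 - 2 * b - 2 * b^2 - 4 * a, 2 - b + 2 * b^2 - a + 2 * a^2;
     0, 0, 0, 0, -4 - b - 3 * a, 2 * a, -1 - 2 * a, 1 + a;
     0, 0, 0, 0, 2 + 4 * b + 2 * b^2, -2, 2 + 2 * b, -1 - 2 * b]

def Q8 {R : Type*} [CommRing R] (a b : R) : Matrix (Fin 8) (Fin 8) R :=
  !![2 - b + b^2 - a + a^2, 1 - b + b^2 - a + a^2, -1 + b + a, -2 + b + a, -2 + 2 * b - b^2 + a, -1 + a, 0, 0;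
     -1 + b - b^2 + a - a^2, -1 + b - b^2 + a - a^2, 1 - b - a, 2 - b - a, 2 - 2 * b + b^2 - a, 1 - a, 0, 0;
     1 - b + b^2 - a + a^2, 2 - b + b^2 - a + a^2, -2 + b + a, -1 + b + a, -2 + 2 * b - b^2 + a, -1 + a, 0, 0;
     -1 + b - b^2 + a - a^2, -1 + b - b^2 + a - a^2, 2 - b - a, 1 - b - a, 2 - 2 * b + b^2 - a, 1 - a, 0, 0;
     -1 - 2 * b - 2 * a, -1 - 2 * b - 2 * a, -2, -2, -3 + 2 * b + 2 * a, 0, -2, -2;
     -8 - 6 * b - 4 * b^2 - 5 * a - 2 * a^2, -8 - 6 * b - 4 * b^2 - 5 * a - 2 * a^2, -4 - 4 * b - 2 * a, -4 - 4 * b - 2 * a, -1 - b + 4 * b^2 + 2 * a + 2 * a^2, 1, -4 - 2 * b - 2 * a, -4 - 3 * b - a;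
     -4 - b - 2 * b^2 - a - 2 * a^2, -4 - b - 2 * b^2 - a - 2 * a^2, -2 * b - 2 * a, -2 * b - 2 * a, 2 - b + 2 * b^2 - a + 2 * a^2, 2, -1 - 2 * a, -1 - a;
     -4 - 2 * b - 4 * b^2, -4 - 2 * b - 4 * b^2, -4 * b, -4 * b, 2 - 4 * b + 4 * b^2 + 2 * a, 2, -2 - 2 * b, -1 - 2 * b]

def G8 {R : Type*} [CommRing R] (a b : R) : Matrix (Fin 8) (Fin 8) R :=
  !![1, 0, 0, 0, 0, 0, 0, 0;
     0, 1, 0, 0, 0, 0, 0, 0;
     0, 0, 1, 0, 0, 0, 0, 0;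
     0, 0, 0, 1, 0, 0, 0, 0;
     0, 0, 0, 0, 0, -1 + a, 0, 0;
     0, 0, 0, 0, -1 + b, 0, 0, 0;
     0, 0, 0, 0, 0, 0, 0, -1 + a;
     0, 0, 0, 0, 0, 0, -1 + b, 0]

def GL8 {R : Type*} [CommRing R] (a b : R) : Matrix (Fin 8) (Fin 8) R :=
  !![1 + b + b^2 + a + 2 * a * b + a^2, b + b^2 + a + 2 * a * b + a^2, 1 + b + a, b + a, 0, 0, 0, 0;
     b + b^2 + a + 2 * a * b + a^2, 1 + b + b^2 + a + 2 * a * b + a^2, b + a, 1 + b + a, 0, 0, 0, 0;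
     1 + b + a, b + a, 2, 0, 0, 0, 0, 0;
     b + a, 1 + b + a, 0, 2, 0, 0, 0, 0;
     0, 0, 0, 0, 0, -1 + a, 0, 0;
     0, 0, 0, 0, -1 + b, 0, 0, 0;
     0, 0, 0, 0, 0, 0, 0, -1 + a;
     0, 0, 0, 0, 0, 0, -1 + b, 0]

def K8 {R : Type*} [CommRing R] (a b : R) : Matrix (Fin 8) (Fin 8) R :=
  !![2 - b + b^2 - a + a^2, -1 + b - b^2 + a - a^2, 1 - b + b^2 - a + a^2, -1 + b - b^2 + a - a^2, 2 - 3 * b - 3 * b^2 - 2 * b^3 + 2 * a + 4 * a^2, -1 + 2 * b + a - 2 * a^2, 2 - 4 * b - 2 * a + 4 * a^2, 3 - b + 2 * b^2 - 3 * a + a^2 - 2 * a^3;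
     1 - b + b^2 - a + a^2, -1 + b - b^2 + a - a^2, 2 - b + b^2 - a + a^2, -1 + b - b^2 + a - a^2, 2 - 3 * b - 3 * b^2 - 2 * b^3 + 2 * a + 4 * a^2, -1 + 2 * b + a - 2 * a^2, 2 - 4 * b - 2 * a + 4 * a^2, 3 - b + 2 * b^2 - 3 * a + a^2 - 2 * a^3;
     -1 + b + a, 1 - b - a, -2 + b + a, 2 - b - a, -2 * b - 2 * b^2 + 4 * a, 2 - 2 * a, -4 + 4 * a, -2 + 2 * b + 2 * a - 2 * a^2;
     -2 + b + a, 2 - b - a, -1 + b + a, 1 - b - a, -2 * b - 2 * b^2 + 4 * a, 2 - 2 * a, -4 + 4 * a, -2 + 2 * b + 2 * a - 2 * a^2;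
     -2 + b + 2 * a - a^2, 2 - b - 2 * a + a^2, -2 + b + 2 * a - a^2, 2 - b - 2 * a + a^2, -3 * b + 2 * b^3 + 5 * a - 4 * a^2, 5 - 2 * b - 5 * a + 2 * a^2, -6 + 2 * b^2 + 8 * a - 4 * a^2, -3 + 3 * b - 2 * b^2 + 3 * a - 3 * a^2 + 2 * a^3;
     -1 + b, 1 - b, -1 + b, 1 - b, -1 + b, 0, -2 + 2 * b, -2 + 2 * a;
     0, 0, 0, 0, 2 - 2 * b - 2 * b^2 + 2 * a, 2 - 2 * a, -2 * b + 2 * a, -1 + 2 * b - a;
     0, 0, 0, 0, 1 - 3 * b - b^2 + 3 * a, 2 - 2 * a, -1 - b + 2 * a, b - a]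

theorem GLP {R : Type*} [CommRing R] (a b : R) (h : a * b = 1) :
    GL8 a b * P8 a b = K8 a b := by
  ext i j
  rw [Matrix.mul_apply, Fin.sum_univ_eight]
  fin_cases i <;> fin_cases j
  · show (1 + b + b^2 + a + 2 * a * b + a^2) * (1) + (b + b^2 + a + 2 * a * b + a^2) * (0) + (1 + b + a) * (-1) + (b + a) * (-1) + (0) * (1) + (0) * (1 - b - a) + (0) * (0) + (0) * (0) = 2 - b + b^2 - a + a^2
    linear_combination (2) * h
  · show (1 + b + b^2 + a + 2 * a * b + a^2) * (1) + (b + b^2 + a + 2 * a * b + a^2) * (0) + (1 + b + a) * (-b - a) + (b + a) * (1 - b - a) + (0) * (-1) + (0) * (-1 + b + a) + (0) * (0) + (0) * (0) = -1 + b - b^2 + a - a^2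
    linear_combination (-2) * h
  · show (1 + b + b^2 + a + 2 * a * b + a^2) * (0) + (b + b^2 + a + 2 * a * b + a^2) * (1) + (1 + b + a) * (-1) + (b + a) * (-1) + (0) * (1) + (0) * (1 - b - a) + (0) * (0) + (0) * (0) = 1 - b + b^2 - a + a^2
    linear_combination (2) * h
  · show (1 + b + b^2 + a + 2 * a * b + a^2) * (0) + (b + b^2 + a + 2 * a * b + a^2) * (1) + (1 + b + a) * (1 - b - a) + (b + a) * (-b - a) + (0) * (-1) + (0) * (-1 + b + a) + (0) * (0) + (0) * (0) = -1 + b - b^2 + a - a^2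
    linear_combination (-2) * h
  · show (1 + b + b^2 + a + 2 * a * b + a^2) * (0) + (b + b^2 + a + 2 * a * b + a^2) * (0) + (1 + b + a) * (-b - b^2 + 2 * a) + (b + a) * (-b - b^2 + 2 * a) + (0) * (1) + (0) * (1 + b - 2 * b^2 - 2 * b^3 - 4 * a) + (0) * (-4 - b - 3 * a) + (0) * (2 + 4 * b + 2 * b^2) = 2 - 3 * b - 3 * b^2 - 2 * b^3 + 2 * a + 4 * a^2
    linear_combination (2 - 2 * b) * h
  · show (1 + b + b^2 + a + 2 * a * b + a^2) * (0) + (b + b^2 + a + 2 * a * b + a^2) * (0) + (1 + b + a) * (1 - a) + (b + a) * (1 - a) + (0) * (0) + (0) * (-3 + 2 * b + 2 * a) + (0) * (2 * a) + (0) * (-2) = -1 + 2 * b + a - 2 * a^2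
    linear_combination (-2) * h
  · show (1 + b + b^2 + a + 2 * a * b + a^2) * (0) + (b + b^2 + a + 2 * a * b + a^2) * (0) + (1 + b + a) * (-2 + 2 * a) + (b + a) * (-2 + 2 * a) + (0) * (2) + (0) * (4 - 2 * b - 2 * b^2 - 4 * a) + (0) * (-1 - 2 * a) + (0) * (2 + 2 * b) = 2 - 4 * b - 2 * a + 4 * a^2
    linear_combination (4) * h
  · show (1 + b + b^2 + a + 2 * a * b + a^2) * (0) + (b + b^2 + a + 2 * a * b + a^2) * (0) + (1 + b + a) * (-1 + b + a - a^2) + (b + a) * (-1 + b + a - a^2) + (0) * (-2 * a) + (0) * (2 - b + 2 * b^2 - a + 2 * a^2) + (0) * (1 + a) + (0) * (-1 - 2 * b) = 3 - b + 2 * b^2 - 3 * a + a^2 - 2 * a^3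
    linear_combination (4 - 2 * a) * h
  · show (b + b^2 + a + 2 * a * b + a^2) * (1) + (1 + b + b^2 + a + 2 * a * b + a^2) * (0) + (b + a) * (-1) + (1 + b + a) * (-1) + (0) * (1) + (0) * (1 - b - a) + (0) * (0) + (0) * (0) = 1 - b + b^2 - a + a^2
    linear_combination (2) * h
  · show (b + b^2 + a + 2 * a * b + a^2) * (1) + (1 + b + b^2 + a + 2 * a * b + a^2) * (0) + (b + a) * (-b - a) + (1 + b + a) * (1 - b - a) + (0) * (-1) + (0) * (-1 + b + a) + (0) * (0) + (0) * (0) = -1 + b - b^2 + a - a^2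
    linear_combination (-2) * h
  · show (b + b^2 + a + 2 * a * b + a^2) * (0) + (1 + b + b^2 + a + 2 * a * b + a^2) * (1) + (b + a) * (-1) + (1 + b + a) * (-1) + (0) * (1) + (0) * (1 - b - a) + (0) * (0) + (0) * (0) = 2 - b + b^2 - a + a^2
    linear_combination (2) * h
  · show (b + b^2 + a + 2 * a * b + a^2) * (0) + (1 + b + b^2 + a + 2 * a * b + a^2) * (1) + (b + a) * (1 - b - a) + (1 + b + a) * (-b - a) + (0) * (-1) + (0) * (-1 + b + a) + (0) * (0) + (0) * (0) = -1 + b - b^2 + a - a^2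
    linear_combination (-2) * h
  · show (b + b^2 + a + 2 * a * b + a^2) * (0) + (1 + b + b^2 + a + 2 * a * b + a^2) * (0) + (b + a) * (-b - b^2 + 2 * a) + (1 + b + a) * (-b - b^2 + 2 * a) + (0) * (1) + (0) * (1 + b - 2 * b^2 - 2 * b^3 - 4 * a) + (0) * (-4 - b - 3 * a) + (0) * (2 + 4 * b + 2 * b^2) = 2 - 3 * b - 3 * b^2 - 2 * b^3 + 2 * a + 4 * a^2
    linear_combination (2 - 2 * b) * h
  · show (b + b^2 + a + 2 * a * b + a^2) * (0) + (1 + b + b^2 + a + 2 * a * b + a^2) * (0) + (b + a) * (1 - a) + (1 + b + a) * (1 - a) + (0) * (0) + (0) * (-3 + 2 * b + 2 * a) + (0) * (2 * a) + (0) * (-2) = -1 + 2 * b + a - 2 * a^2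
    linear_combination (-2) * h
  · show (b + b^2 + a + 2 * a * b + a^2) * (0) + (1 + b + b^2 + a + 2 * a * b + a^2) * (0) + (b + a) * (-2 + 2 * a) + (1 + b + a) * (-2 + 2 * a) + (0) * (2) + (0) * (4 - 2 * b - 2 * b^2 - 4 * a) + (0) * (-1 - 2 * a) + (0) * (2 + 2 * b) = 2 - 4 * b - 2 * a + 4 * a^2
    linear_combination (4) * h
  · show (b + b^2 + a + 2 * a * b + a^2) * (0) + (1 + b + b^2 + a + 2 * a * b + a^2) * (0) + (b + a) * (-1 + b + a - a^2) + (1 + b + a) * (-1 + b + a - a^2) + (0) * (-2 * a) + (0) * (2 - b + 2 * b^2 - a + 2 * a^2) + (0) * (1 + a) + (0) * (-1 - 2 * b) = 3 - b + 2 * b^2 - 3 * a + a^2 - 2 * a^3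
    linear_combination (4 - 2 * a) * h
  · show (1 + b + a) * (1) + (b + a) * (0) + (2) * (-1) + (0) * (-1) + (0) * (1) + (0) * (1 - b - a) + (0) * (0) + (0) * (0) = -1 + b + a
    ring
  · show (1 + b + a) * (1) + (b + a) * (0) + (2) * (-b - a) + (0) * (1 - b - a) + (0) * (-1) + (0) * (-1 + b + a) + (0) * (0) + (0) * (0) = 1 - b - a
    ring
  · show (1 + b + a) * (0) + (b + a) * (1) + (2) * (-1) + (0) * (-1) + (0) * (1) + (0) * (1 - b - a) + (0) * (0) + (0) * (0) = -2 + b + a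
    ring
  · show (1 + b + a) * (0) + (b + a) * (1) + (2) * (1 - b - a) + (0) * (-b - a) + (0) * (-1) + (0) * (-1 + b + a) + (0) * (0) + (0) * (0) = 2 - b - a
    ring
  · show (1 + b + a) * (0) + (b + a) * (0) + (2) * (-b - b^2 + 2 * a) + (0) * (-b - b^2 + 2 * a) + (0) * (1) + (0) * (1 + b - 2 * b^2 - 2 * b^3 - 4 * a) + (0) * (-4 - b - 3 * a) + (0) * (2 + 4 * b + 2 * b^2) = -2 * b - 2 * b^2 + 4 * a
    ring
  · show (1 + b + a) * (0) + (b + a) * (0) + (2) * (1 - a) + (0) * (1 - a) + (0) * (0) + (0) * (-3 + 2 * b + 2 * a) + (0) * (2 * a) + (0) * (-2) = 2 - 2 * a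
    ring
  · show (1 + b + a) * (0) + (b + a) * (0) + (2) * (-2 + 2 * a) + (0) * (-2 + 2 * a) + (0) * (2) + (0) * (4 - 2 * b - 2 * b^2 - 4 * a) + (0) * (-1 - 2 * a) + (0) * (2 + 2 * b) = -4 + 4 * a
    ring
  · show (1 + b + a) * (0) + (b + a) * (0) + (2) * (-1 + b + a - a^2) + (0) * (-1 + b + a - a^2) + (0) * (-2 * a) + (0) * (2 - b + 2 * b^2 - a + 2 * a^2) + (0) * (1 + a) + (0) * (-1 - 2 * b) = -2 + 2 * b + 2 * a - 2 * a^2
    ring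
  · show (b + a) * (1) + (1 + b + a) * (0) + (0) * (-1) + (2) * (-1) + (0) * (1) + (0) * (1 - b - a) + (0) * (0) + (0) * (0) = -2 + b + a
    ring
  · show (b + a) * (1) + (1 + b + a) * (0) + (0) * (-b - a) + (2) * (1 - b - a) + (0) * (-1) + (0) * (-1 + b + a) + (0) * (0) + (0) * (0) = 2 - b - a
    ring
  · show (b + a) * (0) + (1 + b + a) * (1) + (0) * (-1) + (2) * (-1) + (0) * (1) + (0) * (1 - b - a) + (0) * (0) + (0) * (0) = -1 + b + a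
    ring
  · show (b + a) * (0) + (1 + b + a) * (1) + (0) * (1 - b - a) + (2) * (-b - a) + (0) * (-1) + (0) * (-1 + b + a) + (0) * (0) + (0) * (0) = 1 - b - a
    ring
  · show (b + a) * (0) + (1 + b + a) * (0) + (0) * (-b - b^2 + 2 * a) + (2) * (-b - b^2 + 2 * a) + (0) * (1) + (0) * (1 + b - 2 * b^2 - 2 * b^3 - 4 * a) + (0) * (-4 - b - 3 * a) + (0) * (2 + 4 * b + 2 * b^2) = -2 * b - 2 * b^2 + 4 * a
    ring
  · show (b + a) * (0) + (1 + b + a) * (0) + (0) * (1 - a) + (2) * (1 - a) + (0) * (0) + (0) * (-3 + 2 * b + 2 * a) + (0) * (2 * a) + (0) * (-2) = 2 - 2 * a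
    ring
  · show (b + a) * (0) + (1 + b + a) * (0) + (0) * (-2 + 2 * a) + (2) * (-2 + 2 * a) + (0) * (2) + (0) * (4 - 2 * b - 2 * b^2 - 4 * a) + (0) * (-1 - 2 * a) + (0) * (2 + 2 * b) = -4 + 4 * a
    ring
  · show (b + a) * (0) + (1 + b + a) * (0) + (0) * (-1 + b + a - a^2) + (2) * (-1 + b + a - a^2) + (0) * (-2 * a) + (0) * (2 - b + 2 * b^2 - a + 2 * a^2) + (0) * (1 + a) + (0) * (-1 - 2 * b) = -2 + 2 * b + 2 * a - 2 * a^2
    ring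
  · show (0) * (1) + (0) * (0) + (0) * (-1) + (0) * (-1) + (0) * (1) + (-1 + a) * (1 - b - a) + (0) * (0) + (0) * (0) = -2 + b + 2 * a - a^2
    linear_combination (-1) * h
  · show (0) * (1) + (0) * (0) + (0) * (-b - a) + (0) * (1 - b - a) + (0) * (-1) + (-1 + a) * (-1 + b + a) + (0) * (0) + (0) * (0) = 2 - b - 2 * a + a^2
    linear_combination (1) * h
  · show (0) * (0) + (0) * (1) + (0) * (-1) + (0) * (-1) + (0) * (1) + (-1 + a) * (1 - b - a) + (0) * (0) + (0) * (0) = -2 + b + 2 * a - a^2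
    linear_combination (-1) * h
  · show (0) * (0) + (0) * (1) + (0) * (1 - b - a) + (0) * (-b - a) + (0) * (-1) + (-1 + a) * (-1 + b + a) + (0) * (0) + (0) * (0) = 2 - b - 2 * a + a^2
    linear_combination (1) * h
  · show (0) * (0) + (0) * (0) + (0) * (-b - b^2 + 2 * a) + (0) * (-b - b^2 + 2 * a) + (0) * (1) + (-1 + a) * (1 + b - 2 * b^2 - 2 * b^3 - 4 * a) + (0) * (-4 - b - 3 * a) + (0) * (2 + 4 * b + 2 * b^2) = -3 * b + 2 * b^3 + 5 * a - 4 * a^2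
    linear_combination (1 - 2 * b - 2 * b^2) * h
  · show (0) * (0) + (0) * (0) + (0) * (1 - a) + (0) * (1 - a) + (0) * (0) + (-1 + a) * (-3 + 2 * b + 2 * a) + (0) * (2 * a) + (0) * (-2) = 5 - 2 * b - 5 * a + 2 * a^2
    linear_combination (2) * h
  · show (0) * (0) + (0) * (0) + (0) * (-2 + 2 * a) + (0) * (-2 + 2 * a) + (0) * (2) + (-1 + a) * (4 - 2 * b - 2 * b^2 - 4 * a) + (0) * (-1 - 2 * a) + (0) * (2 + 2 * b) = -6 + 2 * b^2 + 8 * a - 4 * a^2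
    linear_combination (-2 - 2 * b) * h
  · show (0) * (0) + (0) * (0) + (0) * (-1 + b + a - a^2) + (0) * (-1 + b + a - a^2) + (0) * (-2 * a) + (-1 + a) * (2 - b + 2 * b^2 - a + 2 * a^2) + (0) * (1 + a) + (0) * (-1 - 2 * b) = -3 + 3 * b - 2 * b^2 + 3 * a - 3 * a^2 + 2 * a^3
    linear_combination (-1 + 2 * b) * h
  · show (0) * (1) + (0) * (0) + (0) * (-1) + (0) * (-1) + (-1 + b) * (1) + (0) * (1 - b - a) + (0) * (0) + (0) * (0) = -1 + b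
    ring
  · show (0) * (1) + (0) * (0) + (0) * (-b - a) + (0) * (1 - b - a) + (-1 + b) * (-1) + (0) * (-1 + b + a) + (0) * (0) + (0) * (0) = 1 - b
    ring
  · show (0) * (0) + (0) * (1) + (0) * (-1) + (0) * (-1) + (-1 + b) * (1) + (0) * (1 - b - a) + (0) * (0) + (0) * (0) = -1 + b
    ring
  · show (0) * (0) + (0) * (1) + (0) * (1 - b - a) + (0) * (-b - a) + (-1 + b) * (-1) + (0) * (-1 + b + a) + (0) * (0) + (0) * (0) = 1 - b
    ring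
  · show (0) * (0) + (0) * (0) + (0) * (-b - b^2 + 2 * a) + (0) * (-b - b^2 + 2 * a) + (-1 + b) * (1) + (0) * (1 + b - 2 * b^2 - 2 * b^3 - 4 * a) + (0) * (-4 - b - 3 * a) + (0) * (2 + 4 * b + 2 * b^2) = -1 + b
    ring
  · show (0) * (0) + (0) * (0) + (0) * (1 - a) + (0) * (1 - a) + (-1 + b) * (0) + (0) * (-3 + 2 * b + 2 * a) + (0) * (2 * a) + (0) * (-2) = 0
    ring
  · show (0) * (0) + (0) * (0) + (0) * (-2 + 2 * a) + (0) * (-2 + 2 * a) + (-1 + b) * (2) + (0) * (4 - 2 * b - 2 * b^2 - 4 * a) + (0) * (-1 - 2 * a) + (0) * (2 + 2 * b) = -2 + 2 * b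
    ring
  · show (0) * (0) + (0) * (0) + (0) * (-1 + b + a - a^2) + (0) * (-1 + b + a - a^2) + (-1 + b) * (-2 * a) + (0) * (2 - b + 2 * b^2 - a + 2 * a^2) + (0) * (1 + a) + (0) * (-1 - 2 * b) = -2 + 2 * a
    linear_combination (-2) * h
  · show (0) * (1) + (0) * (0) + (0) * (-1) + (0) * (-1) + (0) * (1) + (0) * (1 - b - a) + (0) * (0) + (-1 + a) * (0) = 0
    ring
  · show (0) * (1) + (0) * (0) + (0) * (-b - a) + (0) * (1 - b - a) + (0) * (-1) + (0) * (-1 + b + a) + (0) * (0) + (-1 + a) * (0) = 0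
    ring
  · show (0) * (0) + (0) * (1) + (0) * (-1) + (0) * (-1) + (0) * (1) + (0) * (1 - b - a) + (0) * (0) + (-1 + a) * (0) = 0
    ring
  · show (0) * (0) + (0) * (1) + (0) * (1 - b - a) + (0) * (-b - a) + (0) * (-1) + (0) * (-1 + b + a) + (0) * (0) + (-1 + a) * (0) = 0
    ring
  · show (0) * (0) + (0) * (0) + (0) * (-b - b^2 + 2 * a) + (0) * (-b - b^2 + 2 * a) + (0) * (1) + (0) * (1 + b - 2 * b^2 - 2 * b^3 - 4 * a) + (0) * (-4 - b - 3 * a) + (-1 + a) * (2 + 4 * b + 2 * b^2) = 2 - 2 * b - 2 * b^2 + 2 * a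
    linear_combination (4 + 2 * b) * h
  · show (0) * (0) + (0) * (0) + (0) * (1 - a) + (0) * (1 - a) + (0) * (0) + (0) * (-3 + 2 * b + 2 * a) + (0) * (2 * a) + (-1 + a) * (-2) = 2 - 2 * a
    ring
  · show (0) * (0) + (0) * (0) + (0) * (-2 + 2 * a) + (0) * (-2 + 2 * a) + (0) * (2) + (0) * (4 - 2 * b - 2 * b^2 - 4 * a) + (0) * (-1 - 2 * a) + (-1 + a) * (2 + 2 * b) = -2 * b + 2 * a
    linear_combination (2) * h
  · show (0) * (0) + (0) * (0) + (0) * (-1 + b + a - a^2) + (0) * (-1 + b + a - a^2) + (0) * (-2 * a) + (0) * (2 - b + 2 * b^2 - a + 2 * a^2) + (0) * (1 + a) + (-1 + a) * (-1 - 2 * b) = -1 + 2 * b - a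
    linear_combination (-2) * h
  · show (0) * (1) + (0) * (0) + (0) * (-1) + (0) * (-1) + (0) * (1) + (0) * (1 - b - a) + (-1 + b) * (0) + (0) * (0) = 0
    ring
  · show (0) * (1) + (0) * (0) + (0) * (-b - a) + (0) * (1 - b - a) + (0) * (-1) + (0) * (-1 + b + a) + (-1 + b) * (0) + (0) * (0) = 0
    ring
  · show (0) * (0) + (0) * (1) + (0) * (-1) + (0) * (-1) + (0) * (1) + (0) * (1 - b - a) + (-1 + b) * (0) + (0) * (0) = 0
    ring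
  · show (0) * (0) + (0) * (1) + (0) * (1 - b - a) + (0) * (-b - a) + (0) * (-1) + (0) * (-1 + b + a) + (-1 + b) * (0) + (0) * (0) = 0
    ring
  · show (0) * (0) + (0) * (0) + (0) * (-b - b^2 + 2 * a) + (0) * (-b - b^2 + 2 * a) + (0) * (1) + (0) * (1 + b - 2 * b^2 - 2 * b^3 - 4 * a) + (-1 + b) * (-4 - b - 3 * a) + (0) * (2 + 4 * b + 2 * b^2) = 1 - 3 * b - b^2 + 3 * a
    linear_combination (-3) * h
  · show (0) * (0) + (0) * (0) + (0) * (1 - a) + (0) * (1 - a) + (0) * (0) + (0) * (-3 + 2 * b + 2 * a) + (-1 + b) * (2 * a) + (0) * (-2) = 2 - 2 * a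
    linear_combination (2) * h
  · show (0) * (0) + (0) * (0) + (0) * (-2 + 2 * a) + (0) * (-2 + 2 * a) + (0) * (2) + (0) * (4 - 2 * b - 2 * b^2 - 4 * a) + (-1 + b) * (-1 - 2 * a) + (0) * (2 + 2 * b) = -1 - b + 2 * a
    linear_combination (-2) * h
  · show (0) * (0) + (0) * (0) + (0) * (-1 + b + a - a^2) + (0) * (-1 + b + a - a^2) + (0) * (-2 * a) + (0) * (2 - b + 2 * b^2 - a + 2 * a^2) + (-1 + b) * (1 + a) + (0) * (-1 - 2 * b) = b - a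
    linear_combination (1) * h

theorem PstarK {R : Type*} [CommRing R] (a b : R) (h : a * b = 1) :
    (P8 b a).transpose * K8 a b = G8 a b := by
  ext i j
  rw [Matrix.mul_apply, Fin.sum_univ_eight]
  fin_cases i <;> fin_cases j
  · show (1) * (2 - b + b^2 - a + a^2) + (0) * (1 - b + b^2 - a + a^2) + (-1) * (-1 + b + a) + (-1) * (-2 + b + a) + (1) * (-2 + b + 2 * a - a^2) + (1 - a - b) * (-1 + b) + (0) * (0) + (0) * (0) = 1
    linear_combination (-1) * h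
  · show (1) * (-1 + b - b^2 + a - a^2) + (0) * (-1 + b - b^2 + a - a^2) + (-1) * (1 - b - a) + (-1) * (2 - b - a) + (1) * (2 - b - 2 * a + a^2) + (1 - a - b) * (1 - b) + (0) * (0) + (0) * (0) = 0
    linear_combination (1) * h
  · show (1) * (1 - b + b^2 - a + a^2) + (0) * (2 - b + b^2 - a + a^2) + (-1) * (-2 + b + a) + (-1) * (-1 + b + a) + (1) * (-2 + b + 2 * a - a^2) + (1 - a - b) * (-1 + b) + (0) * (0) + (0) * (0) = 0
    linear_combination (-1) * h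
  · show (1) * (-1 + b - b^2 + a - a^2) + (0) * (-1 + b - b^2 + a - a^2) + (-1) * (2 - b - a) + (-1) * (1 - b - a) + (1) * (2 - b - 2 * a + a^2) + (1 - a - b) * (1 - b) + (0) * (0) + (0) * (0) = 0
    linear_combination (1) * h
  · show (1) * (2 - 3 * b - 3 * b^2 - 2 * b^3 + 2 * a + 4 * a^2) + (0) * (2 - 3 * b - 3 * b^2 - 2 * b^3 + 2 * a + 4 * a^2) + (-1) * (-2 * b - 2 * b^2 + 4 * a) + (-1) * (-2 * b - 2 * b^2 + 4 * a) + (1) * (-3 * b + 2 * b^3 + 5 * a - 4 * a^2) + (1 - a - b) * (-1 + b) + (0) * (2 - 2 * b - 2 * b^2 + 2 * a) + (0) * (1 - 3 * b - b^2 + 3 * a) = 0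
    linear_combination (-1) * h
  · show (1) * (-1 + 2 * b + a - 2 * a^2) + (0) * (-1 + 2 * b + a - 2 * a^2) + (-1) * (2 - 2 * a) + (-1) * (2 - 2 * a) + (1) * (5 - 2 * b - 5 * a + 2 * a^2) + (1 - a - b) * (0) + (0) * (2 - 2 * a) + (0) * (2 - 2 * a) = 0
    ring
  · show (1) * (2 - 4 * b - 2 * a + 4 * a^2) + (0) * (2 - 4 * b - 2 * a + 4 * a^2) + (-1) * (-4 + 4 * a) + (-1) * (-4 + 4 * a) + (1) * (-6 + 2 * b^2 + 8 * a - 4 * a^2) + (1 - a - b) * (-2 + 2 * b) + (0) * (-2 * b + 2 * a) + (0) * (-1 - b + 2 * a) = 0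
    linear_combination (-2) * h
  · show (1) * (3 - b + 2 * b^2 - 3 * a + a^2 - 2 * a^3) + (0) * (3 - b + 2 * b^2 - 3 * a + a^2 - 2 * a^3) + (-1) * (-2 + 2 * b + 2 * a - 2 * a^2) + (-1) * (-2 + 2 * b + 2 * a - 2 * a^2) + (1) * (-3 + 3 * b - 2 * b^2 + 3 * a - 3 * a^2 + 2 * a^3) + (1 - a - b) * (-2 + 2 * a) + (0) * (-1 + 2 * b - a) + (0) * (b - a) = 0
    linear_combination (-2) * h
  · show (1) * (2 - b + b^2 - a + a^2) + (0) * (1 - b + b^2 - a + a^2) + (-a - b) * (-1 + b + a) + (1 - a - b) * (-2 + b + a) + (-1) * (-2 + b + 2 * a - a^2) + (-1 + a + b) * (-1 + b) + (0) * (0) + (0) * (0) = 0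
    linear_combination (-3) * h
  · show (1) * (-1 + b - b^2 + a - a^2) + (0) * (-1 + b - b^2 + a - a^2) + (-a - b) * (1 - b - a) + (1 - a - b) * (2 - b - a) + (-1) * (2 - b - 2 * a + a^2) + (-1 + a + b) * (1 - b) + (0) * (0) + (0) * (0) = 1
    linear_combination (3) * h
  · show (1) * (1 - b + b^2 - a + a^2) + (0) * (2 - b + b^2 - a + a^2) + (-a - b) * (-2 + b + a) + (1 - a - b) * (-1 + b + a) + (-1) * (-2 + b + 2 * a - a^2) + (-1 + a + b) * (-1 + b) + (0) * (0) + (0) * (0) = 0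
    linear_combination (-3) * h
  · show (1) * (-1 + b - b^2 + a - a^2) + (0) * (-1 + b - b^2 + a - a^2) + (-a - b) * (2 - b - a) + (1 - a - b) * (1 - b - a) + (-1) * (2 - b - 2 * a + a^2) + (-1 + a + b) * (1 - b) + (0) * (0) + (0) * (0) = 0
    linear_combination (3) * h
  · show (1) * (2 - 3 * b - 3 * b^2 - 2 * b^3 + 2 * a + 4 * a^2) + (0) * (2 - 3 * b - 3 * b^2 - 2 * b^3 + 2 * a + 4 * a^2) + (-a - b) * (-2 * b - 2 * b^2 + 4 * a) + (1 - a - b) * (-2 * b - 2 * b^2 + 4 * a) + (-1) * (-3 * b + 2 * b^3 + 5 * a - 4 * a^2) + (-1 + a + b) * (-1 + b) + (0) * (2 - 2 * b - 2 * b^2 + 2 * a) + (0) * (1 - 3 * b - b^2 + 3 * a) = 0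
    linear_combination (-3 + 4 * b) * h
  · show (1) * (-1 + 2 * b + a - 2 * a^2) + (0) * (-1 + 2 * b + a - 2 * a^2) + (-a - b) * (2 - 2 * a) + (1 - a - b) * (2 - 2 * a) + (-1) * (5 - 2 * b - 5 * a + 2 * a^2) + (-1 + a + b) * (0) + (0) * (2 - 2 * a) + (0) * (2 - 2 * a) = 0
    linear_combination (4) * h
  · show (1) * (2 - 4 * b - 2 * a + 4 * a^2) + (0) * (2 - 4 * b - 2 * a + 4 * a^2) + (-a - b) * (-4 + 4 * a) + (1 - a - b) * (-4 + 4 * a) + (-1) * (-6 + 2 * b^2 + 8 * a - 4 * a^2) + (-1 + a + b) * (-2 + 2 * b) + (0) * (-2 * b + 2 * a) + (0) * (-1 - b + 2 * a) = 0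
    linear_combination (-6) * h
  · show (1) * (3 - b + 2 * b^2 - 3 * a + a^2 - 2 * a^3) + (0) * (3 - b + 2 * b^2 - 3 * a + a^2 - 2 * a^3) + (-a - b) * (-2 + 2 * b + 2 * a - 2 * a^2) + (1 - a - b) * (-2 + 2 * b + 2 * a - 2 * a^2) + (-1) * (-3 + 3 * b - 2 * b^2 + 3 * a - 3 * a^2 + 2 * a^3) + (-1 + a + b) * (-2 + 2 * a) + (0) * (-1 + 2 * b - a) + (0) * (b - a) = 0
    linear_combination (-6 + 4 * a) * h
  · show (0) * (2 - b + b^2 - a + a^2) + (1) * (1 - b + b^2 - a + a^2) + (-1) * (-1 + b + a) + (-1) * (-2 + b + a) + (1) * (-2 + b + 2 * a - a^2) + (1 - a - b) * (-1 + b) + (0) * (0) + (0) * (0) = 0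
    linear_combination (-1) * h
  · show (0) * (-1 + b - b^2 + a - a^2) + (1) * (-1 + b - b^2 + a - a^2) + (-1) * (1 - b - a) + (-1) * (2 - b - a) + (1) * (2 - b - 2 * a + a^2) + (1 - a - b) * (1 - b) + (0) * (0) + (0) * (0) = 0
    linear_combination (1) * h
  · show (0) * (1 - b + b^2 - a + a^2) + (1) * (2 - b + b^2 - a + a^2) + (-1) * (-2 + b + a) + (-1) * (-1 + b + a) + (1) * (-2 + b + 2 * a - a^2) + (1 - a - b) * (-1 + b) + (0) * (0) + (0) * (0) = 1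
    linear_combination (-1) * h
  · show (0) * (-1 + b - b^2 + a - a^2) + (1) * (-1 + b - b^2 + a - a^2) + (-1) * (2 - b - a) + (-1) * (1 - b - a) + (1) * (2 - b - 2 * a + a^2) + (1 - a - b) * (1 - b) + (0) * (0) + (0) * (0) = 0
    linear_combination (1) * h
  · show (0) * (2 - 3 * b - 3 * b^2 - 2 * b^3 + 2 * a + 4 * a^2) + (1) * (2 - 3 * b - 3 * b^2 - 2 * b^3 + 2 * a + 4 * a^2) + (-1) * (-2 * b - 2 * b^2 + 4 * a) + (-1) * (-2 * b - 2 * b^2 + 4 * a) + (1) * (-3 * b + 2 * b^3 + 5 * a - 4 * a^2) + (1 - a - b) * (-1 + b) + (0) * (2 - 2 * b - 2 * b^2 + 2 * a) + (0) * (1 - 3 * b - b^2 + 3 * a) = 0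
    linear_combination (-1) * h
  · show (0) * (-1 + 2 * b + a - 2 * a^2) + (1) * (-1 + 2 * b + a - 2 * a^2) + (-1) * (2 - 2 * a) + (-1) * (2 - 2 * a) + (1) * (5 - 2 * b - 5 * a + 2 * a^2) + (1 - a - b) * (0) + (0) * (2 - 2 * a) + (0) * (2 - 2 * a) = 0
    ring
  · show (0) * (2 - 4 * b - 2 * a + 4 * a^2) + (1) * (2 - 4 * b - 2 * a + 4 * a^2) + (-1) * (-4 + 4 * a) + (-1) * (-4 + 4 * a) + (1) * (-6 + 2 * b^2 + 8 * a - 4 * a^2) + (1 - a - b) * (-2 + 2 * b) + (0) * (-2 * b + 2 * a) + (0) * (-1 - b + 2 * a) = 0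
    linear_combination (-2) * h
  · show (0) * (3 - b + 2 * b^2 - 3 * a + a^2 - 2 * a^3) + (1) * (3 - b + 2 * b^2 - 3 * a + a^2 - 2 * a^3) + (-1) * (-2 + 2 * b + 2 * a - 2 * a^2) + (-1) * (-2 + 2 * b + 2 * a - 2 * a^2) + (1) * (-3 + 3 * b - 2 * b^2 + 3 * a - 3 * a^2 + 2 * a^3) + (1 - a - b) * (-2 + 2 * a) + (0) * (-1 + 2 * b - a) + (0) * (b - a) = 0
    linear_combination (-2) * h
  · show (0) * (2 - b + b^2 - a + a^2) + (1) * (1 - b + b^2 - a + a^2) + (1 - a - b) * (-1 + b + a) + (-a - b) * (-2 + b + a) + (-1) * (-2 + b + 2 * a - a^2) + (-1 + a + b) * (-1 + b) + (0) * (0) + (0) * (0) = 0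
    linear_combination (-3) * h
  · show (0) * (-1 + b - b^2 + a - a^2) + (1) * (-1 + b - b^2 + a - a^2) + (1 - a - b) * (1 - b - a) + (-a - b) * (2 - b - a) + (-1) * (2 - b - 2 * a + a^2) + (-1 + a + b) * (1 - b) + (0) * (0) + (0) * (0) = 0
    linear_combination (3) * h
  · show (0) * (1 - b + b^2 - a + a^2) + (1) * (2 - b + b^2 - a + a^2) + (1 - a - b) * (-2 + b + a) + (-a - b) * (-1 + b + a) + (-1) * (-2 + b + 2 * a - a^2) + (-1 + a + b) * (-1 + b) + (0) * (0) + (0) * (0) = 0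
    linear_combination (-3) * h
  · show (0) * (-1 + b - b^2 + a - a^2) + (1) * (-1 + b - b^2 + a - a^2) + (1 - a - b) * (2 - b - a) + (-a - b) * (1 - b - a) + (-1) * (2 - b - 2 * a + a^2) + (-1 + a + b) * (1 - b) + (0) * (0) + (0) * (0) = 1
    linear_combination (3) * h
  · show (0) * (2 - 3 * b - 3 * b^2 - 2 * b^3 + 2 * a + 4 * a^2) + (1) * (2 - 3 * b - 3 * b^2 - 2 * b^3 + 2 * a + 4 * a^2) + (1 - a - b) * (-2 * b - 2 * b^2 + 4 * a) + (-a - b) * (-2 * b - 2 * b^2 + 4 * a) + (-1) * (-3 * b + 2 * b^3 + 5 * a - 4 * a^2) + (-1 + a + b) * (-1 + b) + (0) * (2 - 2 * b - 2 * b^2 + 2 * a) + (0) * (1 - 3 * b - b^2 + 3 * a) = 0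
    linear_combination (-3 + 4 * b) * h
  · show (0) * (-1 + 2 * b + a - 2 * a^2) + (1) * (-1 + 2 * b + a - 2 * a^2) + (1 - a - b) * (2 - 2 * a) + (-a - b) * (2 - 2 * a) + (-1) * (5 - 2 * b - 5 * a + 2 * a^2) + (-1 + a + b) * (0) + (0) * (2 - 2 * a) + (0) * (2 - 2 * a) = 0
    linear_combination (4) * h
  · show (0) * (2 - 4 * b - 2 * a + 4 * a^2) + (1) * (2 - 4 * b - 2 * a + 4 * a^2) + (1 - a - b) * (-4 + 4 * a) + (-a - b) * (-4 + 4 * a) + (-1) * (-6 + 2 * b^2 + 8 * a - 4 * a^2) + (-1 + a + b) * (-2 + 2 * b) + (0) * (-2 * b + 2 * a) + (0) * (-1 - b + 2 * a) = 0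
    linear_combination (-6) * h
  · show (0) * (3 - b + 2 * b^2 - 3 * a + a^2 - 2 * a^3) + (1) * (3 - b + 2 * b^2 - 3 * a + a^2 - 2 * a^3) + (1 - a - b) * (-2 + 2 * b + 2 * a - 2 * a^2) + (-a - b) * (-2 + 2 * b + 2 * a - 2 * a^2) + (-1) * (-3 + 3 * b - 2 * b^2 + 3 * a - 3 * a^2 + 2 * a^3) + (-1 + a + b) * (-2 + 2 * a) + (0) * (-1 + 2 * b - a) + (0) * (b - a) = 0
    linear_combination (-6 + 4 * a) * h
  · show (0) * (2 - b + b^2 - a + a^2) + (0) * (1 - b + b^2 - a + a^2) + (-a - a^2 + 2 * b) * (-1 + b + a) + (-a - a^2 + 2 * b) * (-2 + b + a) + (1) * (-2 + b + 2 * a - a^2) + (1 + a - 2 * a^2 - 2 * a^3 - 4 * b) * (-1 + b) + (-4 - a - 3 * b) * (0) + (2 + 4 * a + 2 * a^2) * (0) = 0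
    linear_combination (3 - 4 * a - 2 * a^2) * h
  · show (0) * (-1 + b - b^2 + a - a^2) + (0) * (-1 + b - b^2 + a - a^2) + (-a - a^2 + 2 * b) * (1 - b - a) + (-a - a^2 + 2 * b) * (2 - b - a) + (1) * (2 - b - 2 * a + a^2) + (1 + a - 2 * a^2 - 2 * a^3 - 4 * b) * (1 - b) + (-4 - a - 3 * b) * (0) + (2 + 4 * a + 2 * a^2) * (0) = 0
    linear_combination (-3 + 4 * a + 2 * a^2) * h
  · show (0) * (1 - b + b^2 - a + a^2) + (0) * (2 - b + b^2 - a + a^2) + (-a - a^2 + 2 * b) * (-2 + b + a) + (-a - a^2 + 2 * b) * (-1 + b + a) + (1) * (-2 + b + 2 * a - a^2) + (1 + a - 2 * a^2 - 2 * a^3 - 4 * b) * (-1 + b) + (-4 - a - 3 * b) * (0) + (2 + 4 * a + 2 * a^2) * (0) = 0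
    linear_combination (3 - 4 * a - 2 * a^2) * h
  · show (0) * (-1 + b - b^2 + a - a^2) + (0) * (-1 + b - b^2 + a - a^2) + (-a - a^2 + 2 * b) * (2 - b - a) + (-a - a^2 + 2 * b) * (1 - b - a) + (1) * (2 - b - 2 * a + a^2) + (1 + a - 2 * a^2 - 2 * a^3 - 4 * b) * (1 - b) + (-4 - a - 3 * b) * (0) + (2 + 4 * a + 2 * a^2) * (0) = 0
    linear_combination (-3 + 4 * a + 2 * a^2) * h
  · show (0) * (2 - 3 * b - 3 * b^2 - 2 * b^3 + 2 * a + 4 * a^2) + (0) * (2 - 3 * b - 3 * b^2 - 2 * b^3 + 2 * a + 4 * a^2) + (-a - a^2 + 2 * b) * (-2 * b - 2 * b^2 + 4 * a) + (-a - a^2 + 2 * b) * (-2 * b - 2 * b^2 + 4 * a) + (1) * (-3 * b + 2 * b^3 + 5 * a - 4 * a^2) + (1 + a - 2 * a^2 - 2 * a^3 - 4 * b) * (-1 + b) + (-4 - a - 3 * b) * (2 - 2 * b - 2 * b^2 + 2 * a) + (2 + 4 * a + 2 * a^2) * (1 - 3 * b - b^2 + 3 * a) = 0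
    linear_combination (7 + 2 * b - 4 * a + 2 * a * b - 2 * a^2) * h
  · show (0) * (-1 + 2 * b + a - 2 * a^2) + (0) * (-1 + 2 * b + a - 2 * a^2) + (-a - a^2 + 2 * b) * (2 - 2 * a) + (-a - a^2 + 2 * b) * (2 - 2 * a) + (1) * (5 - 2 * b - 5 * a + 2 * a^2) + (1 + a - 2 * a^2 - 2 * a^3 - 4 * b) * (0) + (-4 - a - 3 * b) * (2 - 2 * a) + (2 + 4 * a + 2 * a^2) * (2 - 2 * a) = -1 + a
    linear_combination (-2) * h
  · show (0) * (2 - 4 * b - 2 * a + 4 * a^2) + (0) * (2 - 4 * b - 2 * a + 4 * a^2) + (-a - a^2 + 2 * b) * (-4 + 4 * a) + (-a - a^2 + 2 * b) * (-4 + 4 * a) + (1) * (-6 + 2 * b^2 + 8 * a - 4 * a^2) + (1 + a - 2 * a^2 - 2 * a^3 - 4 * b) * (-2 + 2 * b) + (-4 - a - 3 * b) * (-2 * b + 2 * a) + (2 + 4 * a + 2 * a^2) * (-1 - b + 2 * a) = 0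
    linear_combination (10 - 6 * a - 4 * a^2) * h
  · show (0) * (3 - b + 2 * b^2 - 3 * a + a^2 - 2 * a^3) + (0) * (3 - b + 2 * b^2 - 3 * a + a^2 - 2 * a^3) + (-a - a^2 + 2 * b) * (-2 + 2 * b + 2 * a - 2 * a^2) + (-a - a^2 + 2 * b) * (-2 + 2 * b + 2 * a - 2 * a^2) + (1) * (-3 + 3 * b - 2 * b^2 + 3 * a - 3 * a^2 + 2 * a^3) + (1 + a - 2 * a^2 - 2 * a^3 - 4 * b) * (-2 + 2 * a) + (-4 - a - 3 * b) * (-1 + 2 * b - a) + (2 + 4 * a + 2 * a^2) * (b - a) = 0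
    linear_combination (1 - 10 * a) * h
  · show (0) * (2 - b + b^2 - a + a^2) + (0) * (1 - b + b^2 - a + a^2) + (1 - b) * (-1 + b + a) + (1 - b) * (-2 + b + a) + (0) * (-2 + b + 2 * a - a^2) + (-3 + 2 * a + 2 * b) * (-1 + b) + (2 * b) * (0) + (-2) * (0) = 0
    ring
  · show (0) * (-1 + b - b^2 + a - a^2) + (0) * (-1 + b - b^2 + a - a^2) + (1 - b) * (1 - b - a) + (1 - b) * (2 - b - a) + (0) * (2 - b - 2 * a + a^2) + (-3 + 2 * a + 2 * b) * (1 - b) + (2 * b) * (0) + (-2) * (0) = 0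
    ring
  · show (0) * (1 - b + b^2 - a + a^2) + (0) * (2 - b + b^2 - a + a^2) + (1 - b) * (-2 + b + a) + (1 - b) * (-1 + b + a) + (0) * (-2 + b + 2 * a - a^2) + (-3 + 2 * a + 2 * b) * (-1 + b) + (2 * b) * (0) + (-2) * (0) = 0
    ring
  · show (0) * (-1 + b - b^2 + a - a^2) + (0) * (-1 + b - b^2 + a - a^2) + (1 - b) * (2 - b - a) + (1 - b) * (1 - b - a) + (0) * (2 - b - 2 * a + a^2) + (-3 + 2 * a + 2 * b) * (1 - b) + (2 * b) * (0) + (-2) * (0) = 0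
    ring
  · show (0) * (2 - 3 * b - 3 * b^2 - 2 * b^3 + 2 * a + 4 * a^2) + (0) * (2 - 3 * b - 3 * b^2 - 2 * b^3 + 2 * a + 4 * a^2) + (1 - b) * (-2 * b - 2 * b^2 + 4 * a) + (1 - b) * (-2 * b - 2 * b^2 + 4 * a) + (0) * (-3 * b + 2 * b^3 + 5 * a - 4 * a^2) + (-3 + 2 * a + 2 * b) * (-1 + b) + (2 * b) * (2 - 2 * b - 2 * b^2 + 2 * a) + (-2) * (1 - 3 * b - b^2 + 3 * a) = -1 + b
    linear_combination (-2) * h
  · show (0) * (-1 + 2 * b + a - 2 * a^2) + (0) * (-1 + 2 * b + a - 2 * a^2) + (1 - b) * (2 - 2 * a) + (1 - b) * (2 - 2 * a) + (0) * (5 - 2 * b - 5 * a + 2 * a^2) + (-3 + 2 * a + 2 * b) * (0) + (2 * b) * (2 - 2 * a) + (-2) * (2 - 2 * a) = 0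
    ring
  · show (0) * (2 - 4 * b - 2 * a + 4 * a^2) + (0) * (2 - 4 * b - 2 * a + 4 * a^2) + (1 - b) * (-4 + 4 * a) + (1 - b) * (-4 + 4 * a) + (0) * (-6 + 2 * b^2 + 8 * a - 4 * a^2) + (-3 + 2 * a + 2 * b) * (-2 + 2 * b) + (2 * b) * (-2 * b + 2 * a) + (-2) * (-1 - b + 2 * a) = 0
    ring
  · show (0) * (3 - b + 2 * b^2 - 3 * a + a^2 - 2 * a^3) + (0) * (3 - b + 2 * b^2 - 3 * a + a^2 - 2 * a^3) + (1 - b) * (-2 + 2 * b + 2 * a - 2 * a^2) + (1 - b) * (-2 + 2 * b + 2 * a - 2 * a^2) + (0) * (-3 + 3 * b - 2 * b^2 + 3 * a - 3 * a^2 + 2 * a^3) + (-3 + 2 * a + 2 * b) * (-2 + 2 * a) + (2 * b) * (-1 + 2 * b - a) + (-2) * (b - a) = 0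
    linear_combination (-2 + 4 * a) * h
  · show (0) * (2 - b + b^2 - a + a^2) + (0) * (1 - b + b^2 - a + a^2) + (-2 + 2 * b) * (-1 + b + a) + (-2 + 2 * b) * (-2 + b + a) + (2) * (-2 + b + 2 * a - a^2) + (4 - 2 * a - 2 * a^2 - 4 * b) * (-1 + b) + (-1 - 2 * b) * (0) + (2 + 2 * a) * (0) = 0
    linear_combination (2 - 2 * a) * h
  · show (0) * (-1 + b - b^2 + a - a^2) + (0) * (-1 + b - b^2 + a - a^2) + (-2 + 2 * b) * (1 - b - a) + (-2 + 2 * b) * (2 - b - a) + (2) * (2 - b - 2 * a + a^2) + (4 - 2 * a - 2 * a^2 - 4 * b) * (1 - b) + (-1 - 2 * b) * (0) + (2 + 2 * a) * (0) = 0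
    linear_combination (-2 + 2 * a) * h
  · show (0) * (1 - b + b^2 - a + a^2) + (0) * (2 - b + b^2 - a + a^2) + (-2 + 2 * b) * (-2 + b + a) + (-2 + 2 * b) * (-1 + b + a) + (2) * (-2 + b + 2 * a - a^2) + (4 - 2 * a - 2 * a^2 - 4 * b) * (-1 + b) + (-1 - 2 * b) * (0) + (2 + 2 * a) * (0) = 0
    linear_combination (2 - 2 * a) * h
  · show (0) * (-1 + b - b^2 + a - a^2) + (0) * (-1 + b - b^2 + a - a^2) + (-2 + 2 * b) * (2 - b - a) + (-2 + 2 * b) * (1 - b - a) + (2) * (2 - b - 2 * a + a^2) + (4 - 2 * a - 2 * a^2 - 4 * b) * (1 - b) + (-1 - 2 * b) * (0) + (2 + 2 * a) * (0) = 0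
    linear_combination (-2 + 2 * a) * h
  · show (0) * (2 - 3 * b - 3 * b^2 - 2 * b^3 + 2 * a + 4 * a^2) + (0) * (2 - 3 * b - 3 * b^2 - 2 * b^3 + 2 * a + 4 * a^2) + (-2 + 2 * b) * (-2 * b - 2 * b^2 + 4 * a) + (-2 + 2 * b) * (-2 * b - 2 * b^2 + 4 * a) + (2) * (-3 * b + 2 * b^3 + 5 * a - 4 * a^2) + (4 - 2 * a - 2 * a^2 - 4 * b) * (-1 + b) + (-1 - 2 * b) * (2 - 2 * b - 2 * b^2 + 2 * a) + (2 + 2 * a) * (1 - 3 * b - b^2 + 3 * a) = 0
    linear_combination (4 - 2 * b - 2 * a) * h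
  · show (0) * (-1 + 2 * b + a - 2 * a^2) + (0) * (-1 + 2 * b + a - 2 * a^2) + (-2 + 2 * b) * (2 - 2 * a) + (-2 + 2 * b) * (2 - 2 * a) + (2) * (5 - 2 * b - 5 * a + 2 * a^2) + (4 - 2 * a - 2 * a^2 - 4 * b) * (0) + (-1 - 2 * b) * (2 - 2 * a) + (2 + 2 * a) * (2 - 2 * a) = 0
    linear_combination (-4) * h
  · show (0) * (2 - 4 * b - 2 * a + 4 * a^2) + (0) * (2 - 4 * b - 2 * a + 4 * a^2) + (-2 + 2 * b) * (-4 + 4 * a) + (-2 + 2 * b) * (-4 + 4 * a) + (2) * (-6 + 2 * b^2 + 8 * a - 4 * a^2) + (4 - 2 * a - 2 * a^2 - 4 * b) * (-2 + 2 * b) + (-1 - 2 * b) * (-2 * b + 2 * a) + (2 + 2 * a) * (-1 - b + 2 * a) = 0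
    linear_combination (6 - 4 * a) * h
  · show (0) * (3 - b + 2 * b^2 - 3 * a + a^2 - 2 * a^3) + (0) * (3 - b + 2 * b^2 - 3 * a + a^2 - 2 * a^3) + (-2 + 2 * b) * (-2 + 2 * b + 2 * a - 2 * a^2) + (-2 + 2 * b) * (-2 + 2 * b + 2 * a - 2 * a^2) + (2) * (-3 + 3 * b - 2 * b^2 + 3 * a - 3 * a^2 + 2 * a^3) + (4 - 2 * a - 2 * a^2 - 4 * b) * (-2 + 2 * a) + (-1 - 2 * b) * (-1 + 2 * b - a) + (2 + 2 * a) * (b - a) = -1 + a
    linear_combination (4 - 8 * a) * h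
  · show (0) * (2 - b + b^2 - a + a^2) + (0) * (1 - b + b^2 - a + a^2) + (-1 + a + b - b^2) * (-1 + b + a) + (-1 + a + b - b^2) * (-2 + b + a) + (-2 * b) * (-2 + b + 2 * a - a^2) + (2 - a + 2 * a^2 - b + 2 * b^2) * (-1 + b) + (1 + b) * (0) + (-1 - 2 * a) * (0) = 0
    linear_combination (-1 - 2 * b + 4 * a) * h
  · show (0) * (-1 + b - b^2 + a - a^2) + (0) * (-1 + b - b^2 + a - a^2) + (-1 + a + b - b^2) * (1 - b - a) + (-1 + a + b - b^2) * (2 - b - a) + (-2 * b) * (2 - b - 2 * a + a^2) + (2 - a + 2 * a^2 - b + 2 * b^2) * (1 - b) + (1 + b) * (0) + (-1 - 2 * a) * (0) = 0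
    linear_combination (1 + 2 * b - 4 * a) * h
  · show (0) * (1 - b + b^2 - a + a^2) + (0) * (2 - b + b^2 - a + a^2) + (-1 + a + b - b^2) * (-2 + b + a) + (-1 + a + b - b^2) * (-1 + b + a) + (-2 * b) * (-2 + b + 2 * a - a^2) + (2 - a + 2 * a^2 - b + 2 * b^2) * (-1 + b) + (1 + b) * (0) + (-1 - 2 * a) * (0) = 0
    linear_combination (-1 - 2 * b + 4 * a) * h
  · show (0) * (-1 + b - b^2 + a - a^2) + (0) * (-1 + b - b^2 + a - a^2) + (-1 + a + b - b^2) * (2 - b - a) + (-1 + a + b - b^2) * (1 - b - a) + (-2 * b) * (2 - b - 2 * a + a^2) + (2 - a + 2 * a^2 - b + 2 * b^2) * (1 - b) + (1 + b) * (0) + (-1 - 2 * a) * (0) = 0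
    linear_combination (1 + 2 * b - 4 * a) * h
  · show (0) * (2 - 3 * b - 3 * b^2 - 2 * b^3 + 2 * a + 4 * a^2) + (0) * (2 - 3 * b - 3 * b^2 - 2 * b^3 + 2 * a + 4 * a^2) + (-1 + a + b - b^2) * (-2 * b - 2 * b^2 + 4 * a) + (-1 + a + b - b^2) * (-2 * b - 2 * b^2 + 4 * a) + (-2 * b) * (-3 * b + 2 * b^3 + 5 * a - 4 * a^2) + (2 - a + 2 * a^2 - b + 2 * b^2) * (-1 + b) + (1 + b) * (2 - 2 * b - 2 * b^2 + 2 * a) + (-1 - 2 * a) * (1 - 3 * b - b^2 + 3 * a) = 0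
    linear_combination (1 - 10 * b + 10 * a) * h
  · show (0) * (-1 + 2 * b + a - 2 * a^2) + (0) * (-1 + 2 * b + a - 2 * a^2) + (-1 + a + b - b^2) * (2 - 2 * a) + (-1 + a + b - b^2) * (2 - 2 * a) + (-2 * b) * (5 - 2 * b - 5 * a + 2 * a^2) + (2 - a + 2 * a^2 - b + 2 * b^2) * (0) + (1 + b) * (2 - 2 * a) + (-1 - 2 * a) * (2 - 2 * a) = 0
    linear_combination (4 + 4 * b - 4 * a) * h
  · show (0) * (2 - 4 * b - 2 * a + 4 * a^2) + (0) * (2 - 4 * b - 2 * a + 4 * a^2) + (-1 + a + b - b^2) * (-4 + 4 * a) + (-1 + a + b - b^2) * (-4 + 4 * a) + (-2 * b) * (-6 + 2 * b^2 + 8 * a - 4 * a^2) + (2 - a + 2 * a^2 - b + 2 * b^2) * (-2 + 2 * b) + (1 + b) * (-2 * b + 2 * a) + (-1 - 2 * a) * (-1 - b + 2 * a) = -1 + b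
    linear_combination (-6 - 8 * b + 12 * a) * h
  · show (0) * (3 - b + 2 * b^2 - 3 * a + a^2 - 2 * a^3) + (0) * (3 - b + 2 * b^2 - 3 * a + a^2 - 2 * a^3) + (-1 + a + b - b^2) * (-2 + 2 * b + 2 * a - 2 * a^2) + (-1 + a + b - b^2) * (-2 + 2 * b + 2 * a - 2 * a^2) + (-2 * b) * (-3 + 3 * b - 2 * b^2 + 3 * a - 3 * a^2 + 2 * a^3) + (2 - a + 2 * a^2 - b + 2 * b^2) * (-2 + 2 * a) + (1 + b) * (-1 + 2 * b - a) + (-1 - 2 * a) * (b - a) = 0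
    linear_combination (1 + 2 * a + 4 * a * b - 4 * a^2) * h

theorem PQ {R : Type*} [CommRing R] (a b : R) (h : a * b = 1) :
    P8 a b * Q8 a b = (1 : Matrix (Fin 8) (Fin 8) R) := by
  ext i j
  rw [Matrix.mul_apply, Fin.sum_univ_eight]
  fin_cases i <;> fin_cases j
  · show (1) * (2 - b + b^2 - a + a^2) + (1) * (-1 + b - b^2 + a - a^2) + (0) * (1 - b + b^2 - a + a^2) + (0) * (-1 + b - b^2 + a - a^2) + (0) * (-1 - 2 * b - 2 * a) + (0) * (-8 - 6 * b - 4 * b^2 - 5 * a - 2 * a^2) + (0) * (-4 - b - 2 * b^2 - a - 2 * a^2) + (0) * (-4 - 2 * b - 4 * b^2) = 1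
    ring
  · show (1) * (1 - b + b^2 - a + a^2) + (1) * (-1 + b - b^2 + a - a^2) + (0) * (2 - b + b^2 - a + a^2) + (0) * (-1 + b - b^2 + a - a^2) + (0) * (-1 - 2 * b - 2 * a) + (0) * (-8 - 6 * b - 4 * b^2 - 5 * a - 2 * a^2) + (0) * (-4 - b - 2 * b^2 - a - 2 * a^2) + (0) * (-4 - 2 * b - 4 * b^2) = 0
    ring
  · show (1) * (-1 + b + a) + (1) * (1 - b - a) + (0) * (-2 + b + a) + (0) * (2 - b - a) + (0) * (-2) + (0) * (-4 - 4 * b - 2 * a) + (0) * (-2 * b - 2 * a) + (0) * (-4 * b) = 0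
    ring
  · show (1) * (-2 + b + a) + (1) * (2 - b - a) + (0) * (-1 + b + a) + (0) * (1 - b - a) + (0) * (-2) + (0) * (-4 - 4 * b - 2 * a) + (0) * (-2 * b - 2 * a) + (0) * (-4 * b) = 0
    ring
  · show (1) * (-2 + 2 * b - b^2 + a) + (1) * (2 - 2 * b + b^2 - a) + (0) * (-2 + 2 * b - b^2 + a) + (0) * (2 - 2 * b + b^2 - a) + (0) * (-3 + 2 * b + 2 * a) + (0) * (-1 - b + 4 * b^2 + 2 * a + 2 * a^2) + (0) * (2 - b + 2 * b^2 - a + 2 * a^2) + (0) * (2 - 4 * b + 4 * b^2 + 2 * a) = 0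
    ring
  · show (1) * (-1 + a) + (1) * (1 - a) + (0) * (-1 + a) + (0) * (1 - a) + (0) * (0) + (0) * (1) + (0) * (2) + (0) * (2) = 0
    ring
  · show (1) * (0) + (1) * (0) + (0) * (0) + (0) * (0) + (0) * (-2) + (0) * (-4 - 2 * b - 2 * a) + (0) * (-1 - 2 * a) + (0) * (-2 - 2 * b) = 0
    ring
  · show (1) * (0) + (1) * (0) + (0) * (0) + (0) * (0) + (0) * (-2) + (0) * (-4 - 3 * b - a) + (0) * (-1 - a) + (0) * (-1 - 2 * b) = 0
    ring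
  · show (0) * (2 - b + b^2 - a + a^2) + (0) * (-1 + b - b^2 + a - a^2) + (1) * (1 - b + b^2 - a + a^2) + (1) * (-1 + b - b^2 + a - a^2) + (0) * (-1 - 2 * b - 2 * a) + (0) * (-8 - 6 * b - 4 * b^2 - 5 * a - 2 * a^2) + (0) * (-4 - b - 2 * b^2 - a - 2 * a^2) + (0) * (-4 - 2 * b - 4 * b^2) = 0
    ring
  · show (0) * (1 - b + b^2 - a + a^2) + (0) * (-1 + b - b^2 + a - a^2) + (1) * (2 - b + b^2 - a + a^2) + (1) * (-1 + b - b^2 + a - a^2) + (0) * (-1 - 2 * b - 2 * a) + (0) * (-8 - 6 * b - 4 * b^2 - 5 * a - 2 * a^2) + (0) * (-4 - b - 2 * b^2 - a - 2 * a^2) + (0) * (-4 - 2 * b - 4 * b^2) = 1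
    ring
  · show (0) * (-1 + b + a) + (0) * (1 - b - a) + (1) * (-2 + b + a) + (1) * (2 - b - a) + (0) * (-2) + (0) * (-4 - 4 * b - 2 * a) + (0) * (-2 * b - 2 * a) + (0) * (-4 * b) = 0
    ring
  · show (0) * (-2 + b + a) + (0) * (2 - b - a) + (1) * (-1 + b + a) + (1) * (1 - b - a) + (0) * (-2) + (0) * (-4 - 4 * b - 2 * a) + (0) * (-2 * b - 2 * a) + (0) * (-4 * b) = 0
    ring
  · show (0) * (-2 + 2 * b - b^2 + a) + (0) * (2 - 2 * b + b^2 - a) + (1) * (-2 + 2 * b - b^2 + a) + (1) * (2 - 2 * b + b^2 - a) + (0) * (-3 + 2 * b + 2 * a) + (0) * (-1 - b + 4 * b^2 + 2 * a + 2 * a^2) + (0) * (2 - b + 2 * b^2 - a + 2 * a^2) + (0) * (2 - 4 * b + 4 * b^2 + 2 * a) = 0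
    ring
  · show (0) * (-1 + a) + (0) * (1 - a) + (1) * (-1 + a) + (1) * (1 - a) + (0) * (0) + (0) * (1) + (0) * (2) + (0) * (2) = 0
    ring
  · show (0) * (0) + (0) * (0) + (1) * (0) + (1) * (0) + (0) * (-2) + (0) * (-4 - 2 * b - 2 * a) + (0) * (-1 - 2 * a) + (0) * (-2 - 2 * b) = 0
    ring
  · show (0) * (0) + (0) * (0) + (1) * (0) + (1) * (0) + (0) * (-2) + (0) * (-4 - 3 * b - a) + (0) * (-1 - a) + (0) * (-1 - 2 * b) = 0
    ring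
  · show (-1) * (2 - b + b^2 - a + a^2) + (-b - a) * (-1 + b - b^2 + a - a^2) + (-1) * (1 - b + b^2 - a + a^2) + (1 - b - a) * (-1 + b - b^2 + a - a^2) + (-b - b^2 + 2 * a) * (-1 - 2 * b - 2 * a) + (1 - a) * (-8 - 6 * b - 4 * b^2 - 5 * a - 2 * a^2) + (-2 + 2 * a) * (-4 - b - 2 * b^2 - a - 2 * a^2) + (-1 + b + a - a^2) * (-4 - 2 * b - 4 * b^2) = 0
    linear_combination (4 * a + 4 * a * b) * h
  · show (-1) * (1 - b + b^2 - a + a^2) + (-b - a) * (-1 + b - b^2 + a - a^2) + (-1) * (2 - b + b^2 - a + a^2) + (1 - b - a) * (-1 + b - b^2 + a - a^2) + (-b - b^2 + 2 * a) * (-1 - 2 * b - 2 * a) + (1 - a) * (-8 - 6 * b - 4 * b^2 - 5 * a - 2 * a^2) + (-2 + 2 * a) * (-4 - b - 2 * b^2 - a - 2 * a^2) + (-1 + b + a - a^2) * (-4 - 2 * b - 4 * b^2) = 0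
    linear_combination (4 * a + 4 * a * b) * h
  · show (-1) * (-1 + b + a) + (-b - a) * (1 - b - a) + (-1) * (-2 + b + a) + (1 - b - a) * (2 - b - a) + (-b - b^2 + 2 * a) * (-2) + (1 - a) * (-4 - 4 * b - 2 * a) + (-2 + 2 * a) * (-2 * b - 2 * a) + (-1 + b + a - a^2) * (-4 * b) = 1
    linear_combination (4 * a) * h
  · show (-1) * (-2 + b + a) + (-b - a) * (2 - b - a) + (-1) * (-1 + b + a) + (1 - b - a) * (1 - b - a) + (-b - b^2 + 2 * a) * (-2) + (1 - a) * (-4 - 4 * b - 2 * a) + (-2 + 2 * a) * (-2 * b - 2 * a) + (-1 + b + a - a^2) * (-4 * b) = 0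
    linear_combination (4 * a) * h
  · show (-1) * (-2 + 2 * b - b^2 + a) + (-b - a) * (2 - 2 * b + b^2 - a) + (-1) * (-2 + 2 * b - b^2 + a) + (1 - b - a) * (2 - 2 * b + b^2 - a) + (-b - b^2 + 2 * a) * (-3 + 2 * b + 2 * a) + (1 - a) * (-1 - b + 4 * b^2 + 2 * a + 2 * a^2) + (-2 + 2 * a) * (2 - b + 2 * b^2 - a + 2 * a^2) + (-1 + b + a - a^2) * (2 - 4 * b + 4 * b^2 + 2 * a) = 0
    linear_combination (1 + 4 * a - 4 * a * b) * h
  · show (-1) * (-1 + a) + (-b - a) * (1 - a) + (-1) * (-1 + a) + (1 - b - a) * (1 - a) + (-b - b^2 + 2 * a) * (0) + (1 - a) * (1) + (-2 + 2 * a) * (2) + (-1 + b + a - a^2) * (2) = 0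
    linear_combination (2) * h
  · show (-1) * (0) + (-b - a) * (0) + (-1) * (0) + (1 - b - a) * (0) + (-b - b^2 + 2 * a) * (-2) + (1 - a) * (-4 - 2 * b - 2 * a) + (-2 + 2 * a) * (-1 - 2 * a) + (-1 + b + a - a^2) * (-2 - 2 * b) = 0
    linear_combination (2 * a) * h
  · show (-1) * (0) + (-b - a) * (0) + (-1) * (0) + (1 - b - a) * (0) + (-b - b^2 + 2 * a) * (-2) + (1 - a) * (-4 - 3 * b - a) + (-2 + 2 * a) * (-1 - a) + (-1 + b + a - a^2) * (-1 - 2 * b) = 0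
    linear_combination (1 + 2 * a) * h
  · show (-1) * (2 - b + b^2 - a + a^2) + (1 - b - a) * (-1 + b - b^2 + a - a^2) + (-1) * (1 - b + b^2 - a + a^2) + (-b - a) * (-1 + b - b^2 + a - a^2) + (-b - b^2 + 2 * a) * (-1 - 2 * b - 2 * a) + (1 - a) * (-8 - 6 * b - 4 * b^2 - 5 * a - 2 * a^2) + (-2 + 2 * a) * (-4 - b - 2 * b^2 - a - 2 * a^2) + (-1 + b + a - a^2) * (-4 - 2 * b - 4 * b^2) = 0
    linear_combination (4 * a + 4 * a * b) * h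
  · show (-1) * (1 - b + b^2 - a + a^2) + (1 - b - a) * (-1 + b - b^2 + a - a^2) + (-1) * (2 - b + b^2 - a + a^2) + (-b - a) * (-1 + b - b^2 + a - a^2) + (-b - b^2 + 2 * a) * (-1 - 2 * b - 2 * a) + (1 - a) * (-8 - 6 * b - 4 * b^2 - 5 * a - 2 * a^2) + (-2 + 2 * a) * (-4 - b - 2 * b^2 - a - 2 * a^2) + (-1 + b + a - a^2) * (-4 - 2 * b - 4 * b^2) = 0
    linear_combination (4 * a + 4 * a * b) * h
  · show (-1) * (-1 + b + a) + (1 - b - a) * (1 - b - a) + (-1) * (-2 + b + a) + (-b - a) * (2 - b - a) + (-b - b^2 + 2 * a) * (-2) + (1 - a) * (-4 - 4 * b - 2 * a) + (-2 + 2 * a) * (-2 * b - 2 * a) + (-1 + b + a - a^2) * (-4 * b) = 0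
    linear_combination (4 * a) * h
  · show (-1) * (-2 + b + a) + (1 - b - a) * (2 - b - a) + (-1) * (-1 + b + a) + (-b - a) * (1 - b - a) + (-b - b^2 + 2 * a) * (-2) + (1 - a) * (-4 - 4 * b - 2 * a) + (-2 + 2 * a) * (-2 * b - 2 * a) + (-1 + b + a - a^2) * (-4 * b) = 1
    linear_combination (4 * a) * h
  · show (-1) * (-2 + 2 * b - b^2 + a) + (1 - b - a) * (2 - 2 * b + b^2 - a) + (-1) * (-2 + 2 * b - b^2 + a) + (-b - a) * (2 - 2 * b + b^2 - a) + (-b - b^2 + 2 * a) * (-3 + 2 * b + 2 * a) + (1 - a) * (-1 - b + 4 * b^2 + 2 * a + 2 * a^2) + (-2 + 2 * a) * (2 - b + 2 * b^2 - a + 2 * a^2) + (-1 + b + a - a^2) * (2 - 4 * b + 4 * b^2 + 2 * a) = 0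
    linear_combination (1 + 4 * a - 4 * a * b) * h
  · show (-1) * (-1 + a) + (1 - b - a) * (1 - a) + (-1) * (-1 + a) + (-b - a) * (1 - a) + (-b - b^2 + 2 * a) * (0) + (1 - a) * (1) + (-2 + 2 * a) * (2) + (-1 + b + a - a^2) * (2) = 0
    linear_combination (2) * h
  · show (-1) * (0) + (1 - b - a) * (0) + (-1) * (0) + (-b - a) * (0) + (-b - b^2 + 2 * a) * (-2) + (1 - a) * (-4 - 2 * b - 2 * a) + (-2 + 2 * a) * (-1 - 2 * a) + (-1 + b + a - a^2) * (-2 - 2 * b) = 0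
    linear_combination (2 * a) * h
  · show (-1) * (0) + (1 - b - a) * (0) + (-1) * (0) + (-b - a) * (0) + (-b - b^2 + 2 * a) * (-2) + (1 - a) * (-4 - 3 * b - a) + (-2 + 2 * a) * (-1 - a) + (-1 + b + a - a^2) * (-1 - 2 * b) = 0
    linear_combination (1 + 2 * a) * h
  · show (1) * (2 - b + b^2 - a + a^2) + (-1) * (-1 + b - b^2 + a - a^2) + (1) * (1 - b + b^2 - a + a^2) + (-1) * (-1 + b - b^2 + a - a^2) + (1) * (-1 - 2 * b - 2 * a) + (0) * (-8 - 6 * b - 4 * b^2 - 5 * a - 2 * a^2) + (2) * (-4 - b - 2 * b^2 - a - 2 * a^2) + (-2 * a) * (-4 - 2 * b - 4 * b^2) = 0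
    linear_combination (4 + 8 * b) * h
  · show (1) * (1 - b + b^2 - a + a^2) + (-1) * (-1 + b - b^2 + a - a^2) + (1) * (2 - b + b^2 - a + a^2) + (-1) * (-1 + b - b^2 + a - a^2) + (1) * (-1 - 2 * b - 2 * a) + (0) * (-8 - 6 * b - 4 * b^2 - 5 * a - 2 * a^2) + (2) * (-4 - b - 2 * b^2 - a - 2 * a^2) + (-2 * a) * (-4 - 2 * b - 4 * b^2) = 0
    linear_combination (4 + 8 * b) * h
  · show (1) * (-1 + b + a) + (-1) * (1 - b - a) + (1) * (-2 + b + a) + (-1) * (2 - b - a) + (1) * (-2) + (0) * (-4 - 4 * b - 2 * a) + (2) * (-2 * b - 2 * a) + (-2 * a) * (-4 * b) = 0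
    linear_combination (8) * h
  · show (1) * (-2 + b + a) + (-1) * (2 - b - a) + (1) * (-1 + b + a) + (-1) * (1 - b - a) + (1) * (-2) + (0) * (-4 - 4 * b - 2 * a) + (2) * (-2 * b - 2 * a) + (-2 * a) * (-4 * b) = 0
    linear_combination (8) * h
  · show (1) * (-2 + 2 * b - b^2 + a) + (-1) * (2 - 2 * b + b^2 - a) + (1) * (-2 + 2 * b - b^2 + a) + (-1) * (2 - 2 * b + b^2 - a) + (1) * (-3 + 2 * b + 2 * a) + (0) * (-1 - b + 4 * b^2 + 2 * a + 2 * a^2) + (2) * (2 - b + 2 * b^2 - a + 2 * a^2) + (-2 * a) * (2 - 4 * b + 4 * b^2 + 2 * a) = 1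
    linear_combination (8 - 8 * b) * h
  · show (1) * (-1 + a) + (-1) * (1 - a) + (1) * (-1 + a) + (-1) * (1 - a) + (1) * (0) + (0) * (1) + (2) * (2) + (-2 * a) * (2) = 0
    ring
  · show (1) * (0) + (-1) * (0) + (1) * (0) + (-1) * (0) + (1) * (-2) + (0) * (-4 - 2 * b - 2 * a) + (2) * (-1 - 2 * a) + (-2 * a) * (-2 - 2 * b) = 0
    linear_combination (4) * h
  · show (1) * (0) + (-1) * (0) + (1) * (0) + (-1) * (0) + (1) * (-2) + (0) * (-4 - 3 * b - a) + (2) * (-1 - a) + (-2 * a) * (-1 - 2 * b) = 0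
    linear_combination (4) * h
  · show (1 - b - a) * (2 - b + b^2 - a + a^2) + (-1 + b + a) * (-1 + b - b^2 + a - a^2) + (1 - b - a) * (1 - b + b^2 - a + a^2) + (-1 + b + a) * (-1 + b - b^2 + a - a^2) + (1 + b - 2 * b^2 - 2 * b^3 - 4 * a) * (-1 - 2 * b - 2 * a) + (-3 + 2 * b + 2 * a) * (-8 - 6 * b - 4 * b^2 - 5 * a - 2 * a^2) + (4 - 2 * b - 2 * b^2 - 4 * a) * (-4 - b - 2 * b^2 - a - 2 * a^2) + (2 - b + 2 * b^2 - a + 2 * a^2) * (-4 - 2 * b - 4 * b^2) = 0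
    linear_combination (-4 + 6 * b + 4 * b^2 - 8 * a - 4 * a * b) * h
  · show (1 - b - a) * (1 - b + b^2 - a + a^2) + (-1 + b + a) * (-1 + b - b^2 + a - a^2) + (1 - b - a) * (2 - b + b^2 - a + a^2) + (-1 + b + a) * (-1 + b - b^2 + a - a^2) + (1 + b - 2 * b^2 - 2 * b^3 - 4 * a) * (-1 - 2 * b - 2 * a) + (-3 + 2 * b + 2 * a) * (-8 - 6 * b - 4 * b^2 - 5 * a - 2 * a^2) + (4 - 2 * b - 2 * b^2 - 4 * a) * (-4 - b - 2 * b^2 - a - 2 * a^2) + (2 - b + 2 * b^2 - a + 2 * a^2) * (-4 - 2 * b - 4 * b^2) = 0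
    linear_combination (-4 + 6 * b + 4 * b^2 - 8 * a - 4 * a * b) * h
  · show (1 - b - a) * (-1 + b + a) + (-1 + b + a) * (1 - b - a) + (1 - b - a) * (-2 + b + a) + (-1 + b + a) * (2 - b - a) + (1 + b - 2 * b^2 - 2 * b^3 - 4 * a) * (-2) + (-3 + 2 * b + 2 * a) * (-4 - 4 * b - 2 * a) + (4 - 2 * b - 2 * b^2 - 4 * a) * (-2 * b - 2 * a) + (2 - b + 2 * b^2 - a + 2 * a^2) * (-4 * b) = 0
    linear_combination (-4 + 4 * b - 8 * a) * h
  · show (1 - b - a) * (-2 + b + a) + (-1 + b + a) * (2 - b - a) + (1 - b - a) * (-1 + b + a) + (-1 + b + a) * (1 - b - a) + (1 + b - 2 * b^2 - 2 * b^3 - 4 * a) * (-2) + (-3 + 2 * b + 2 * a) * (-4 - 4 * b - 2 * a) + (4 - 2 * b - 2 * b^2 - 4 * a) * (-2 * b - 2 * a) + (2 - b + 2 * b^2 - a + 2 * a^2) * (-4 * b) = 0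
    linear_combination (-4 + 4 * b - 8 * a) * h
  · show (1 - b - a) * (-2 + 2 * b - b^2 + a) + (-1 + b + a) * (2 - 2 * b + b^2 - a) + (1 - b - a) * (-2 + 2 * b - b^2 + a) + (-1 + b + a) * (2 - 2 * b + b^2 - a) + (1 + b - 2 * b^2 - 2 * b^3 - 4 * a) * (-3 + 2 * b + 2 * a) + (-3 + 2 * b + 2 * a) * (-1 - b + 4 * b^2 + 2 * a + 2 * a^2) + (4 - 2 * b - 2 * b^2 - 4 * a) * (2 - b + 2 * b^2 - a + 2 * a^2) + (2 - b + 2 * b^2 - a + 2 * a^2) * (2 - 4 * b + 4 * b^2 + 2 * a) = 0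
    linear_combination (-4 + 2 * b - 4 * b^2 - 8 * a + 4 * a * b) * h
  · show (1 - b - a) * (-1 + a) + (-1 + b + a) * (1 - a) + (1 - b - a) * (-1 + a) + (-1 + b + a) * (1 - a) + (1 + b - 2 * b^2 - 2 * b^3 - 4 * a) * (0) + (-3 + 2 * b + 2 * a) * (1) + (4 - 2 * b - 2 * b^2 - 4 * a) * (2) + (2 - b + 2 * b^2 - a + 2 * a^2) * (2) = 1
    linear_combination (-4) * h
  · show (1 - b - a) * (0) + (-1 + b + a) * (0) + (1 - b - a) * (0) + (-1 + b + a) * (0) + (1 + b - 2 * b^2 - 2 * b^3 - 4 * a) * (-2) + (-3 + 2 * b + 2 * a) * (-4 - 2 * b - 2 * a) + (4 - 2 * b - 2 * b^2 - 4 * a) * (-1 - 2 * a) + (2 - b + 2 * b^2 - a + 2 * a^2) * (-2 - 2 * b) = 0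
    linear_combination (-2 + 4 * b - 4 * a) * h
  · show (1 - b - a) * (0) + (-1 + b + a) * (0) + (1 - b - a) * (0) + (-1 + b + a) * (0) + (1 + b - 2 * b^2 - 2 * b^3 - 4 * a) * (-2) + (-3 + 2 * b + 2 * a) * (-4 - 3 * b - a) + (4 - 2 * b - 2 * b^2 - 4 * a) * (-1 - a) + (2 - b + 2 * b^2 - a + 2 * a^2) * (-1 - 2 * b) = 0
    linear_combination (-4 + 2 * b - 4 * a) * h
  · show (0) * (2 - b + b^2 - a + a^2) + (0) * (-1 + b - b^2 + a - a^2) + (0) * (1 - b + b^2 - a + a^2) + (0) * (-1 + b - b^2 + a - a^2) + (-4 - b - 3 * a) * (-1 - 2 * b - 2 * a) + (2 * a) * (-8 - 6 * b - 4 * b^2 - 5 * a - 2 * a^2) + (-1 - 2 * a) * (-4 - b - 2 * b^2 - a - 2 * a^2) + (1 + a) * (-4 - 2 * b - 4 * b^2) = 0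
    linear_combination (-4 - 8 * b) * h
  · show (0) * (1 - b + b^2 - a + a^2) + (0) * (-1 + b - b^2 + a - a^2) + (0) * (2 - b + b^2 - a + a^2) + (0) * (-1 + b - b^2 + a - a^2) + (-4 - b - 3 * a) * (-1 - 2 * b - 2 * a) + (2 * a) * (-8 - 6 * b - 4 * b^2 - 5 * a - 2 * a^2) + (-1 - 2 * a) * (-4 - b - 2 * b^2 - a - 2 * a^2) + (1 + a) * (-4 - 2 * b - 4 * b^2) = 0
    linear_combination (-4 - 8 * b) * h
  · show (0) * (-1 + b + a) + (0) * (1 - b - a) + (0) * (-2 + b + a) + (0) * (2 - b - a) + (-4 - b - 3 * a) * (-2) + (2 * a) * (-4 - 4 * b - 2 * a) + (-1 - 2 * a) * (-2 * b - 2 * a) + (1 + a) * (-4 * b) = 0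
    linear_combination (-8) * h
  · show (0) * (-2 + b + a) + (0) * (2 - b - a) + (0) * (-1 + b + a) + (0) * (1 - b - a) + (-4 - b - 3 * a) * (-2) + (2 * a) * (-4 - 4 * b - 2 * a) + (-1 - 2 * a) * (-2 * b - 2 * a) + (1 + a) * (-4 * b) = 0
    linear_combination (-8) * h
  · show (0) * (-2 + 2 * b - b^2 + a) + (0) * (2 - 2 * b + b^2 - a) + (0) * (-2 + 2 * b - b^2 + a) + (0) * (2 - 2 * b + b^2 - a) + (-4 - b - 3 * a) * (-3 + 2 * b + 2 * a) + (2 * a) * (-1 - b + 4 * b^2 + 2 * a + 2 * a^2) + (-1 - 2 * a) * (2 - b + 2 * b^2 - a + 2 * a^2) + (1 + a) * (2 - 4 * b + 4 * b^2 + 2 * a) = 0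
    linear_combination (-12 + 8 * b) * h
  · show (0) * (-1 + a) + (0) * (1 - a) + (0) * (-1 + a) + (0) * (1 - a) + (-4 - b - 3 * a) * (0) + (2 * a) * (1) + (-1 - 2 * a) * (2) + (1 + a) * (2) = 0
    ring
  · show (0) * (0) + (0) * (0) + (0) * (0) + (0) * (0) + (-4 - b - 3 * a) * (-2) + (2 * a) * (-4 - 2 * b - 2 * a) + (-1 - 2 * a) * (-1 - 2 * a) + (1 + a) * (-2 - 2 * b) = 1
    linear_combination (-6) * h
  · show (0) * (0) + (0) * (0) + (0) * (0) + (0) * (0) + (-4 - b - 3 * a) * (-2) + (2 * a) * (-4 - 3 * b - a) + (-1 - 2 * a) * (-1 - a) + (1 + a) * (-1 - 2 * b) = 0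
    linear_combination (-8) * h
  · show (0) * (2 - b + b^2 - a + a^2) + (0) * (-1 + b - b^2 + a - a^2) + (0) * (1 - b + b^2 - a + a^2) + (0) * (-1 + b - b^2 + a - a^2) + (2 + 4 * b + 2 * b^2) * (-1 - 2 * b - 2 * a) + (-2) * (-8 - 6 * b - 4 * b^2 - 5 * a - 2 * a^2) + (2 + 2 * b) * (-4 - b - 2 * b^2 - a - 2 * a^2) + (-1 - 2 * b) * (-4 - 2 * b - 4 * b^2) = 0
    linear_combination (-10 - 4 * b - 4 * a) * h
  · show (0) * (1 - b + b^2 - a + a^2) + (0) * (-1 + b - b^2 + a - a^2) + (0) * (2 - b + b^2 - a + a^2) + (0) * (-1 + b - b^2 + a - a^2) + (2 + 4 * b + 2 * b^2) * (-1 - 2 * b - 2 * a) + (-2) * (-8 - 6 * b - 4 * b^2 - 5 * a - 2 * a^2) + (2 + 2 * b) * (-4 - b - 2 * b^2 - a - 2 * a^2) + (-1 - 2 * b) * (-4 - 2 * b - 4 * b^2) = 0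
    linear_combination (-10 - 4 * b - 4 * a) * h
  · show (0) * (-1 + b + a) + (0) * (1 - b - a) + (0) * (-2 + b + a) + (0) * (2 - b - a) + (2 + 4 * b + 2 * b^2) * (-2) + (-2) * (-4 - 4 * b - 2 * a) + (2 + 2 * b) * (-2 * b - 2 * a) + (-1 - 2 * b) * (-4 * b) = 0
    linear_combination (-4) * h
  · show (0) * (-2 + b + a) + (0) * (2 - b - a) + (0) * (-1 + b + a) + (0) * (1 - b - a) + (2 + 4 * b + 2 * b^2) * (-2) + (-2) * (-4 - 4 * b - 2 * a) + (2 + 2 * b) * (-2 * b - 2 * a) + (-1 - 2 * b) * (-4 * b) = 0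
    linear_combination (-4) * h
  · show (0) * (-2 + 2 * b - b^2 + a) + (0) * (2 - 2 * b + b^2 - a) + (0) * (-2 + 2 * b - b^2 + a) + (0) * (2 - 2 * b + b^2 - a) + (2 + 4 * b + 2 * b^2) * (-3 + 2 * b + 2 * a) + (-2) * (-1 - b + 4 * b^2 + 2 * a + 2 * a^2) + (2 + 2 * b) * (2 - b + 2 * b^2 - a + 2 * a^2) + (-1 - 2 * b) * (2 - 4 * b + 4 * b^2 + 2 * a) = 0
    linear_combination (2 + 4 * b + 4 * a) * h
  · show (0) * (-1 + a) + (0) * (1 - a) + (0) * (-1 + a) + (0) * (1 - a) + (2 + 4 * b + 2 * b^2) * (0) + (-2) * (1) + (2 + 2 * b) * (2) + (-1 - 2 * b) * (2) = 0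
    ring
  · show (0) * (0) + (0) * (0) + (0) * (0) + (0) * (0) + (2 + 4 * b + 2 * b^2) * (-2) + (-2) * (-4 - 2 * b - 2 * a) + (2 + 2 * b) * (-1 - 2 * a) + (-1 - 2 * b) * (-2 - 2 * b) = 0
    linear_combination (-4) * h
  · show (0) * (0) + (0) * (0) + (0) * (0) + (0) * (0) + (2 + 4 * b + 2 * b^2) * (-2) + (-2) * (-4 - 3 * b - a) + (2 + 2 * b) * (-1 - a) + (-1 - 2 * b) * (-1 - 2 * b) = 1
    linear_combination (-2) * h

end Pool.Agent.H62A
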