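import Mathlib
import Pool.Agent.H62A.Core
import Pool.Agent.H62A.Iso

/-!
# Assembly of the blocks
-/

set_option autoImplicit false
open LaurentPolynomial
open scoped Matrix

namespace Pool.Agent.H62A

/-- the inverse of the explicit form -/
def Minv {R : Type*} [CommRing R] (a b : R) : Matrix (Fin 4) (Fin 4) R :=
  !![2, 0, -(1 + (a + b)), -(a + b);
     0, 2, -(a + b), -(1 + (a + b));
     -(1 + (a + b)), -(a + b), 1 + (a + b) + (a + b) ^ 2, (a + b) + (a + b) ^ 2;
     -(a + b), -(1 + (a + b)), (a + b) + (a + b) ^ 2, 1 + (a + b) + (a + b) ^ 2]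

theorem Lm_mul_Minv {R : Type*} [CommRing R] (a b : R) : Lm a b * Minv a b = 1 := by
  ext i j
  rw [Matrix.mul_apply, Fin.sum_univ_four]
  fin_cases i <;> fin_cases j <;> simp [Lm, Minv] <;> ring

/-- the enumeration of the index set -/
def eFun : Fin 4 ⊕ Fin 2 × Fin 2 → Fin 8
  | Sum.inl i => ⟨i.val, by omega⟩
  | Sum.inr p => ⟨4 + 2 * p.2.val + p.1.val, by omega⟩

theorem eFun_bij : Function.Bijective eFun := by
  constructor
  · decide
  · decide

/-- the enumeration as an equivalence -/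
noncomputable def e : Fin 4 ⊕ Fin 2 × Fin 2 ≃ Fin 8 := Equiv.ofBijective eFun eFun_bij

theorem e_inl (i : Fin 4) : e (Sum.inl i) = ⟨i.val, by omega⟩ := rfl
theorem e_inr (p : Fin 2 × Fin 2) : e (Sum.inr p) = ⟨4 + 2 * p.2.val + p.1.val, by omega⟩ := rfl

theorem GL_eq {R : Type*} [CommRing R] (a b : R) :
    Matrix.fromBlocks (Lm a b) 0 0
      (Matrix.blockDiagonal (fun _ : Fin 2 => !![0, a - 1; b - 1, 0]))
      = (GL8 a b).submatrix e e := by
  ext i j
  rcases i with i | ⟨i, k⟩ <;> rcases j with j | ⟨j, l⟩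
  · fin_cases i <;> fin_cases j <;> simp [Lm, GL8, e_inl] <;> ring
  · fin_cases i <;> fin_cases j <;> fin_cases l <;> simp [GL8, e_inl, e_inr]
  · fin_cases i <;> fin_cases k <;> fin_cases j <;> simp [GL8, e_inl, e_inr]
  · fin_cases i <;> fin_cases k <;> fin_cases j <;> fin_cases l <;>
      simp [GL8, e_inr, Matrix.blockDiagonal_apply] <;> ring

theorem G_eq {R : Type*} [CommRing R] (a b : R) :
    Matrix.fromBlocks (1 : Matrix (Fin 4) (Fin 4) R) 0 0
      (Matrix.blockDiagonal (fun _ : Fin 2 => !![0, a - 1; b - 1, 0]))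
      = (G8 a b).submatrix e e := by
  ext i j
  rcases i with i | ⟨i, k⟩ <;> rcases j with j | ⟨j, l⟩
  · fin_cases i <;> fin_cases j <;> simp [G8, e_inl]
  · fin_cases i <;> fin_cases j <;> fin_cases l <;> simp [G8, e_inl, e_inr]
  · fin_cases i <;> fin_cases k <;> fin_cases j <;> simp [G8, e_inl, e_inr]
  · fin_cases i <;> fin_cases k <;> fin_cases j <;> fin_cases l <;>
      simp [G8, e_inr, Matrix.blockDiagonal_apply] <;> ring

theorem iso_eq {R : Type*} [CommRing R] (a b : R) (h : a * b = 1) :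
    ((P8 b a).submatrix e e)ᵀ * ((GL8 a b).submatrix e e) * ((P8 a b).submatrix e e)
      = (G8 a b).submatrix e e := by
  rw [Matrix.transpose_submatrix, Matrix.submatrix_mul_equiv, Matrix.submatrix_mul_equiv,
    Matrix.mul_assoc, GLP a b h, PstarK a b h]

theorem PQ_eq {R : Type*} [CommRing R] (a b : R) (h : a * b = 1) :
    ((P8 a b).submatrix e e) * ((Q8 a b).submatrix e e) = 1 := by
  rw [Matrix.submatrix_mul_equiv, PQ a b h, Matrix.submatrix_one_equiv]

theorem P8_map {R S : Type*} [CommRing R] [CommRing S] (f : R →+* S) (a b : R) :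
    (P8 a b).map f = P8 (f a) (f b) := by
  have h2 : f 2 = 2 := map_ofNat f 2
  have h3 : f 3 = 3 := map_ofNat f 3
  have h4 : f 4 = 4 := map_ofNat f 4
  ext i j
  fin_cases i <;> fin_cases j <;> simp [P8, h2, h3, h4]

theorem Lm_map {R S : Type*} [CommRing R] [CommRing S] (f : R →+* S) (a b : R) :
    (Lm a b).map f = Lm (f a) (f b) := by
  have h2 : f 2 = 2 := map_ofNat f 2
  ext i j
  fin_cases i <;> fin_cases j <;> simp [Lm, h2]

end Pool.Agent.H62A
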